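import Pool.Agent.Q64.GL.Stm

/-!
# The one variable Bellman computation (project GL, lemma BEL1)
-/

set_option autoImplicit false

open MeasureTheory Set Filter Topology
open scoped ENNReal NNReal Real

namespace Pool.Agent.Q150.GL

open Pool.Agent.Q64.GL

theorem bel_alg (Q F F1 W V a b g e e1 : ℝ) (hQ : 1 ≤ Q) (hW : 0 < W) (hV : 0 < V)
    (h1 : 1 ≤ W * V) (hWV : W * V ≤ Q) (hg : g = 1 / (W ^ 2 * V)) (he : e = 2 * V - g)
    (he1 : e1 = 2 * V * b + g * (2 * a + b)) :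
    1 / (66 * Q ^ 3) * W * F1 ^ 2 ≤
      (2 / e) * (F1 - F * e1 / e) ^ 2 + F ^ 2 / e ^ 2 * (g * (6 * a ^ 2 + 4 * a * b + 2 * b ^ 2)) := by
  have hg0 : 0 < g := by rw [hg]; positivity
  have hgV : g ≤ V := by
    rw [hg, div_le_iff₀ (by positivity)]
    nlinarith [mul_self_nonneg (W * V - 1)]
  have hgQ : V ≤ g * Q ^ 2 := by
    rw [hg, div_mul_eq_mul_div, one_mul, le_div_iff₀ (by positivity)]
    have : (W * V) ^ 2 ≤ Q ^ 2 := by gcongr
    nlinarith
  have heV : V ≤ e := by linarith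
  have he2 : e ≤ 2 * V := by linarith
  have he0 : 0 < e := lt_of_lt_of_le hV heV
  have hQ0 : 0 < Q := by linarith
  -- bound of e1
  have hab : 0 ≤ 2 * a ^ 2 + b ^ 2 := by positivity
  have hquad : 2 * a ^ 2 + b ^ 2 ≤ 6 * a ^ 2 + 4 * a * b + 2 * b ^ 2 := by
    nlinarith [sq_nonneg (2 * a + b)]
  have hb1 : e1 ^ 2 ≤ 11 * V ^ 2 * (2 * a ^ 2 + b ^ 2) := by
    have h2 : |e1| ≤ V * (3 * |b| + 2 * |a|) := by
      rw [he1]
      calc |2 * V * b + g * (2 * a + b)| ≤ |2 * V * b| + |g * (2 * a + b)| := abs_add_le _ _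
        _ = 2 * V * |b| + g * |2 * a + b| := by
            rw [abs_mul, abs_mul g, abs_of_pos hg0, abs_of_pos (by positivity : 0 < 2 * V)]
        _ ≤ 2 * V * |b| + V * (2 * |a| + |b|) := by
            have : |2 * a + b| ≤ 2 * |a| + |b| := by
              refine (abs_add_le _ _).trans ?_
              rw [abs_mul, abs_of_pos (by norm_num : (0 : ℝ) < 2)]
            gcongr
        _ = _ := by ring
    calc e1 ^ 2 = |e1| ^ 2 := (sq_abs _).symm
      _ ≤ (V * (3 * |b| + 2 * |a|)) ^ 2 := by gcongr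
      _ = V ^ 2 * (3 * |b| + 2 * |a|) ^ 2 := by ring
      _ ≤ V ^ 2 * (11 * (2 * |a| ^ 2 + |b| ^ 2)) := by
          gcongr
          nlinarith [sq_nonneg (|b| - 3 * |a|)]
      _ = _ := by rw [sq_abs, sq_abs]; ring
  set k : ℝ := 1 / (11 * Q ^ 2) with hk
  have hk0 : 0 < k := by positivity
  have hk1 : k ≤ 1 := by
    rw [hk, div_le_one (by positivity)]
    nlinarith
  set Y : ℝ := F * e1 / e with hY
  -- second term
  have hsec : k * Y ^ 2 / e ≤ F ^ 2 / e ^ 2 * (g * (6 * a ^ 2 + 4 * a * b + 2 * b ^ 2)) := by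
    have h3 : e1 ^ 2 * k / e ≤ g * (6 * a ^ 2 + 4 * a * b + 2 * b ^ 2) := by
      calc e1 ^ 2 * k / e ≤ e1 ^ 2 * k / V := by gcongr
        _ ≤ 11 * V ^ 2 * (2 * a ^ 2 + b ^ 2) * k / V := by gcongr
        _ = V / Q ^ 2 * (2 * a ^ 2 + b ^ 2) := by
            rw [hk]
            field_simp
        _ ≤ g * (2 * a ^ 2 + b ^ 2) := by
            gcongr
            rw [div_le_iff₀ (by positivity)]
            exact hgQ
        _ ≤ _ := by gcongr
    calc k * Y ^ 2 / e = F ^ 2 / e ^ 2 * (e1 ^ 2 * k / e) := by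
          rw [hY]
          field_simp
      _ ≤ _ := by gcongr
  have hmain : k / 3 * F1 ^ 2 / e ≤ (2 / e) * (F1 - Y) ^ 2 + k * Y ^ 2 / e := by
    rw [div_mul_eq_mul_div 2 e, ← add_div]
    gcongr
    nlinarith [sq_nonneg (3 * Y - 2 * F1), sq_nonneg F1, sq_nonneg Y, mul_pos hk0 hk0,
      mul_nonneg hk0.le (sq_nonneg F1), mul_nonneg hk0.le (sq_nonneg Y),
      mul_nonneg hk0.le (sq_nonneg (F1 - Y)), mul_nonneg hk0.le (sq_nonneg (F1 - 2 * Y)),
      sq_nonneg (F1 - Y), mul_nonneg (by linarith : 0 ≤ 1 - k) (sq_nonneg (F1 - Y))]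
  have hlast : 1 / (66 * Q ^ 3) * W * F1 ^ 2 ≤ k / 3 * F1 ^ 2 / e := by
    have h4 : 1 / (66 * Q ^ 3) * W ≤ k / 3 / e := by
      calc 1 / (66 * Q ^ 3) * W ≤ 1 / (66 * Q ^ 3) * (Q / V) := by
            gcongr
            rw [le_div_iff₀ hV]; exact hWV
        _ = k / 3 / (2 * V) := by
            rw [hk]; field_simp; norm_num
        _ ≤ k / 3 / e := by gcongr
    calc 1 / (66 * Q ^ 3) * W * F1 ^ 2 ≤ k / 3 / e * F1 ^ 2 := by gcongr
      _ = _ := by ring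
  linarith

theorem t_BEL1 : S_BEL1 := by
  intro Q hQ
  refine ⟨1 / (66 * Q ^ 3), by positivity, ?_⟩
  intro F W V F1 W1 V1 F2 W2 V2 s hF hW hV hF1 hW1 hV1 hW0 hV0 h1 hWV
  -- first derivative near s
  have hP : ∀ t, HasDerivAt W (W1 t) t → HasDerivAt V (V1 t) t →
      HasDerivAt (fun t => W t ^ 2 * V t) (2 * W t * W1 t * V t + W t ^ 2 * V1 t) t := by
    intro t hWt hVt
    have h := (hWt.fun_pow 2).fun_mul hVt
    refine h.congr_deriv ?_
    norm_num
  have heta : ∀ t, HasDerivAt W (W1 t) t → HasDerivAt V (V1 t) t → 0 < W t → 0 < V t →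
      HasDerivAt (fun t => 2 * V t - 1 / (W t ^ 2 * V t))
        (2 * V1 t + (2 * W t * W1 t * V t + W t ^ 2 * V1 t) / (W t ^ 2 * V t) ^ 2) t := by
    intro t hWt hVt hWt0 hVt0
    have h := (hVt.const_mul 2).fun_sub ((hasDerivAt_const t (1 : ℝ)).fun_div (hP t hWt hVt)
      (by positivity))
    refine h.congr_deriv ?_
    ring
  have hetapos : ∀ t, 0 < W t → 0 < V t → 1 ≤ W t * V t →
      0 < 2 * V t - 1 / (W t ^ 2 * V t) := by
    intro t hWt hVt h1t
    have : 1 / (W t ^ 2 * V t) ≤ V t := by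
      rw [div_le_iff₀ (by positivity)]
      nlinarith [mul_self_nonneg (W t * V t - 1)]
    linarith
  have hB : deriv (fun t => F t ^ 2 / (2 * V t - 1 / (W t ^ 2 * V t))) =ᶠ[𝓝 s]
      fun t => (2 * F t * F1 t * (2 * V t - 1 / (W t ^ 2 * V t)) - F t ^ 2 *
        (2 * V1 t + (2 * W t * W1 t * V t + W t ^ 2 * V1 t) / (W t ^ 2 * V t) ^ 2)) /
        (2 * V t - 1 / (W t ^ 2 * V t)) ^ 2 := by
    filter_upwards [hF, hW, hV, hW0, hV0, h1] with t hFt hWt hVt hWt0 hVt0 h1t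
    have h := (hFt.fun_pow 2).fun_div (heta t hWt hVt hWt0 hVt0) (hetapos t hWt0 hVt0 h1t).ne'
    rw [h.deriv]
    congr 1
    simp
  rw [hB.deriv_eq]
  have hFs := hF.self_of_nhds
  have hWs := hW.self_of_nhds
  have hVs := hV.self_of_nhds
  have hWs0 := hW0.self_of_nhds
  have hVs0 := hV0.self_of_nhds
  have h1s := h1.self_of_nhds
  have hes := hetapos s hWs0 hVs0 h1s
  have hnum1 : HasDerivAt (fun t => 2 * W t * W1 t * V t + W t ^ 2 * V1 t)
      (((2 * W1 s) * W1 s + 2 * W s * W2) * V s + 2 * W s * W1 s * V1 s +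
        (2 * W s * W1 s * V1 s + W s ^ 2 * V2)) s := by
    have h := (((hWs.const_mul 2).fun_mul hW1).fun_mul hVs).fun_add ((hWs.fun_pow 2).fun_mul hV1)
    refine h.congr_deriv ?_
    norm_num
  have heta1 := ((hV1.const_mul 2).fun_add
    (hnum1.fun_div ((hP s hWs hVs).fun_pow 2) (by positivity)))
  have hN := ((((hFs.const_mul 2).fun_mul hF1).fun_mul (heta s hWs hVs hWs0 hVs0)).fun_sub
    ((hFs.fun_pow 2).fun_mul heta1)).fun_div ((heta s hWs hVs hWs0 hVs0).fun_pow 2)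
    (pow_ne_zero 2 hes.ne')
  rw [hN.deriv]
  refine (bel_alg Q (F s) (F1 s) (W s) (V s) (W1 s / W s) (V1 s / V s) (1 / (W s ^ 2 * V s))
    (2 * V s - 1 / (W s ^ 2 * V s))
    (2 * V1 s + (2 * W s * W1 s * V s + W s ^ 2 * V1 s) / (W s ^ 2 * V s) ^ 2) hQ hWs0 hVs0 h1s
    hWV rfl rfl ?_).trans (le_of_eq ?_)
  · field_simp
  · simp only [Nat.cast_ofNat, Nat.add_one_sub_one, pow_one]
    generalize he : 2 * V s - 1 / (W s ^ 2 * V s) = e at hes ⊢
    have hWn := hWs0.ne'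
    have hVn := hVs0.ne'
    have hen := hes.ne'
    field_simp
    ring

end Pool.Agent.Q150.GL
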