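import Pool.Agent.Q165.GL.Stm

/-!
# Project GL (helper165), job EDGE
-/

set_option autoImplicit false

namespace Pool.Agent.Q150.GL.Edge

open Finset Pool.Agent.Q165.GL

section cnt

variable {α β : Type} [Fintype α] [Fintype β]

lemma cnt_le_of_inj {p : α → Prop} {q : β → Prop} (f : α → β) (hf : ∀ x, p x → q (f x))
    (hi : ∀ x x', p x → p x' → f x = f x' → x = x') : cnt p ≤ cnt q := by
  classical
  unfold cnt
  refine Finset.card_le_card_of_injOn f ?_ ?_
  · intro x hx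
    rw [Finset.mem_coe, Finset.mem_filter] at hx ⊢
    exact ⟨Finset.mem_univ _, hf x hx.2⟩
  · intro x hx x' hx' h
    rw [Finset.mem_coe, Finset.mem_filter] at hx hx'
    exact hi x x' hx.2 hx'.2 h

lemma card_le_cnt {p : α → Prop} (A : Finset α) (h : ∀ x ∈ A, p x) : A.card ≤ cnt p := by
  classical
  unfold cnt
  refine Finset.card_le_card fun x hx => ?_
  rw [Finset.mem_filter]
  exact ⟨Finset.mem_univ _, h x hx⟩

lemma cnt_mono {p q : α → Prop} (h : ∀ x, p x → q x) : cnt p ≤ cnt q :=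
  cnt_le_of_inj id h fun _ _ _ _ h => h

lemma cnt_or {p q r : α → Prop} (h : ∀ x, p x → q x ∨ r x) : cnt p ≤ cnt q + cnt r := by
  classical
  unfold cnt
  refine (Finset.card_le_card ?_).trans (Finset.card_union_le _ _)
  intro x hx
  rw [Finset.mem_filter] at hx
  rw [Finset.mem_union, Finset.mem_filter, Finset.mem_filter]
  rcases h x hx.2 with h1 | h1
  · exact Or.inl ⟨hx.1, h1⟩
  · exact Or.inr ⟨hx.1, h1⟩

lemma cnt_swap (p : α × α → Prop) : cnt (fun q : α × α => p (q.2, q.1)) ≤ cnt p :=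
  cnt_le_of_inj (fun q : α × α => (q.2, q.1)) (fun _ h => h) fun x x' _ _ h => by
    have h1 := congrArg Prod.fst h
    have h2 := congrArg Prod.snd h
    exact Prod.ext h2 h1

end cnt

section

variable {ι : Type} [Fintype ι] (V : Views ι) (G : SimpleGraph ι) {y : ι}

lemma pos_cases {a b c : ℝ} (h : 0 < b * c) : (0 < a → 0 < a * b * c) ∧ (a < 0 → a * b * c < 0) := by
  constructor
  · intro ha
    rw [mul_assoc]
    exact mul_pos ha h
  · intro ha
    rw [mul_assoc]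
    exact mul_neg_of_neg_of_pos ha h

lemma neg_cases {a b c : ℝ} (h : b * c < 0) : (0 < a → a * b * c < 0) ∧ (a < 0 → 0 < a * b * c) := by
  constructor
  · intro ha
    rw [mul_assoc]
    exact mul_neg_of_pos_of_neg ha h
  · intro ha
    rw [mul_assoc]
    exact mul_pos_of_neg_of_neg ha h

/-- the edges which are on different sides at one level -/
lemma level {x : ι} (hx : x ≠ y) (S : ι → Prop)
    (hS : ∀ z, z ≠ x → z ≠ y → (S z ↔ ns V y x z)) :
    cnt (fun q : ι × ι => G.Adj q.1 q.2 ∧ q.1 ≠ y ∧ q.2 ≠ y ∧ ¬ near G y q.1 q.2 ∧ S q.1 ∧ ¬ S q.2) ≤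
      far V G y x + cnt (fun q : ι => G.Adj x q ∧ q ≠ y ∧ (ns V y x q ↔ ¬ S x)) := by
  classical
  have hneg : ∀ z, z ≠ x → z ≠ y → ¬ ns V y x z → V.a y z * (V.r y z - V.r y x) < 0 := by
    intro z hzx hzy h
    unfold ns at h
    refine lt_of_le_of_ne (not_lt.1 h) ?_
    exact mul_ne_zero (V.ha y z hzy.symm) (sub_ne_zero.2 (V.hr y z x hzy.symm hx.symm hzx))
  have hor := cnt_or (p := fun q : ι × ι => G.Adj q.1 q.2 ∧ q.1 ≠ y ∧ q.2 ≠ y ∧
      ¬ near G y q.1 q.2 ∧ S q.1 ∧ ¬ S q.2)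
    (q := fun q : ι × ι => (G.Adj q.1 q.2 ∧ q.1 ≠ y ∧ q.2 ≠ y ∧
      ¬ near G y q.1 q.2 ∧ S q.1 ∧ ¬ S q.2) ∧ q.1 ≠ x ∧ q.2 ≠ x)
    (r := fun q : ι × ι => (G.Adj q.1 q.2 ∧ q.1 ≠ y ∧ q.2 ≠ y ∧
      ¬ near G y q.1 q.2 ∧ S q.1 ∧ ¬ S q.2) ∧ (q.1 = x ∨ q.2 = x)) (by
      intro q hq
      by_cases h : q.1 = x ∨ q.2 = x
      · exact Or.inr ⟨hq, h⟩
      · push Not at h
        exact Or.inl ⟨hq, h⟩)
  refine hor.trans (Nat.add_le_add ?_ ?_) <;> clear hor
  · unfold far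
    rcases lt_or_gt_of_ne (V.ha y x hx.symm) with ha | ha
    · refine cnt_le_of_inj (fun q => (q.2, q.1)) ?_ ?_
      · rintro ⟨p, q⟩ ⟨⟨h1, h2, h3, h4, h5, h6⟩, h7, h8⟩
        simp only at h1 h2 h3 h4 h5 h6 h7 h8
        have e1 := (hS p h7 h2).1 h5
        have e2 := hneg q h8 h3 (fun h => h6 ((hS q h8 h3).2 h))
        refine ⟨h1.symm, ?_, h3, h8, h2, h7, ?_, ?_⟩
        · intro h
          exact h4 (Or.symm h)
        · exact (neg_cases e2).2 ha
        · exact (pos_cases e1).2 ha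
      · rintro ⟨p, q⟩ ⟨p', q'⟩ _ _ h
        simp only [Prod.mk.injEq] at h ⊢
        exact ⟨h.2, h.1⟩
    · refine cnt_mono ?_
      rintro ⟨p, q⟩ ⟨⟨h1, h2, h3, h4, h5, h6⟩, h7, h8⟩
      simp only at h1 h2 h3 h4 h5 h6 h7 h8
      have e1 := (hS p h7 h2).1 h5
      have e2 := hneg q h8 h3 (fun h => h6 ((hS q h8 h3).2 h))
      exact ⟨h1, h4, h2, h7, h3, h8, (pos_cases e1).1 ha, (neg_cases e2).1 ha⟩
  · by_cases hSx : S x
    · refine cnt_le_of_inj (fun q => q.2) ?_ ?_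
      · rintro ⟨p, q⟩ ⟨⟨h1, h2, h3, h4, h5, h6⟩, h7⟩
        simp only at h1 h2 h3 h4 h5 h6 h7 ⊢
        have hqx : q ≠ x := by
          rintro rfl
          exact h6 hSx
        have hpx : p = x := by
          rcases h7 with h | h
          · exact h
          · exact absurd h hqx
        subst hpx
        refine ⟨h1, h3, ?_⟩
        rw [← hS q hqx h3]
        tauto
      · rintro ⟨p, q⟩ ⟨p', q'⟩ ⟨⟨_, _, _, _, _, h6⟩, h7⟩ ⟨⟨_, _, _, _, _, h6'⟩, h7'⟩ h
        simp only at h h6 h6' h7 h7' ⊢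
        have hp : p = x := by
          rcases h7 with h | h
          · exact h
          · rw [h] at h6; exact absurd hSx h6
        have hp' : p' = x := by
          rcases h7' with h | h
          · exact h
          · rw [h] at h6'; exact absurd hSx h6'
        rw [hp, hp', h]
    · refine cnt_le_of_inj (fun q => q.1) ?_ ?_
      · rintro ⟨p, q⟩ ⟨⟨h1, h2, h3, h4, h5, h6⟩, h7⟩
        simp only at h1 h2 h3 h4 h5 h6 h7 ⊢
        have hpx : p ≠ x := by
          rintro rfl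
          exact hSx h5
        have hqx : q = x := by
          rcases h7 with h | h
          · exact absurd h hpx
          · exact h
        subst hqx
        refine ⟨h1.symm, h2, ?_⟩
        rw [← hS p hpx h2]
        tauto
      · rintro ⟨p, q⟩ ⟨p', q'⟩ ⟨⟨_, _, _, _, h5, _⟩, h7⟩ ⟨⟨_, _, _, _, h5', _⟩, h7'⟩ h
        simp only at h h5 h5' h7 h7' ⊢
        have hp : q = x := by
          rcases h7 with h | h
          · rw [h] at h5; exact absurd h5 hSx
          · exact h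
        have hp' : q' = x := by
          rcases h7' with h | h
          · rw [h] at h5'; exact absurd h5' hSx
          · exact h
        rw [hp, hp', h]

/-- the edges at `y` -/
lemma at_y (W : Finset ι) :
    cnt (fun q : ι × ι => G.Adj q.1 q.2 ∧ (q.1 ∈ W ∨ q.2 ∈ W) ∧
      (q.1 = y ∨ q.2 = y ∨ near G y q.1 q.2)) ≤ 2 * dd G y := by
  have h1 : cnt (fun q : ι × ι => G.Adj q.1 q.2 ∧ (q.1 ∈ W ∨ q.2 ∈ W) ∧
      (q.1 = y ∨ q.2 = y ∨ near G y q.1 q.2)) ≤
      cnt (fun q : ι × ι => G.Adj y q.1 ∧ G.Adj q.1 q.2) +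
        cnt (fun q : ι × ι => G.Adj y q.2 ∧ G.Adj q.2 q.1) := by
    refine cnt_or ?_
    rintro ⟨p, q⟩ ⟨h1, _, h2⟩
    simp only at h1 h2 ⊢
    rcases h2 with h | h | h | h
    · subst h
      exact Or.inr ⟨h1, h1.symm⟩
    · subst h
      exact Or.inl ⟨h1.symm, h1⟩
    · exact Or.inl ⟨h, h1⟩
    · exact Or.inr ⟨h, h1.symm⟩
  have h2 := cnt_swap (fun q : ι × ι => G.Adj y q.1 ∧ G.Adj q.1 q.2)
  unfold dd
  have h3 : cnt (fun q : ι × ι => G.Adj y q.2 ∧ G.Adj q.2 q.1) ≤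
      cnt (fun q : ι × ι => G.Adj y q.1 ∧ G.Adj q.1 q.2) := h2
  omega

end

/-- packing -/
lemma pack {α : Type} (Q : Finset α) (len : α → ℕ) (hlen : ∀ q ∈ Q, 1 ≤ len q)
    (hinj : ∀ q ∈ Q, ∀ q' ∈ Q, len q = len q' → q = q') (K : ℕ) :
    2 * ∑ q ∈ Q, (K + 1 - len q) ≤ K * (K + 1) := by
  classical
  have h1 : ∑ q ∈ Q, (K + 1 - len q) = ∑ i ∈ Q.image (fun q => len q - 1), (K - i) := by
    rw [Finset.sum_image]
    · refine Finset.sum_congr rfl fun q hq => ?_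
      have := hlen q hq
      omega
    · intro q hq q' hq' h
      rw [Finset.mem_coe] at hq hq'
      have a1 := hlen q hq
      have a2 := hlen q' hq'
      refine hinj q hq q' hq' ?_
      have h3 : len q - 1 = len q' - 1 := h
      omega
  have h2 : ∑ i ∈ Q.image (fun q => len q - 1), (K - i) ≤ ∑ i ∈ range K, (K - i) := by
    refine Finset.sum_le_sum_of_ne_zero fun i _ hi => ?_
    rw [Finset.mem_range]
    omega
  have h3 : ∀ K : ℕ, 2 * ∑ i ∈ range K, (K - i) = K * (K + 1) := by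
    intro K
    induction K with
    | zero => simp
    | succ K ih =>
      rw [Finset.sum_range_succ]
      have h4 : ∑ i ∈ range K, (K + 1 - i) = ∑ i ∈ range K, (K - i) + K := by
        have h5 : ∑ i ∈ range K, (K + 1 - i) = ∑ i ∈ range K, ((K - i) + 1) := by
          refine Finset.sum_congr rfl fun i hi => ?_
          rw [Finset.mem_range] at hi
          omega
        rw [h5, Finset.sum_add_distrib, Finset.sum_const, Finset.card_range, smul_eq_mul, mul_one]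
      rw [h4]
      have h6 : K + 1 - K = 1 := by omega
      rw [h6]
      linarith
  rw [h1, ← h3 K]
  omega

section main

variable {ι : Type} [Fintype ι] (V : Views ι) (G : SimpleGraph ι) {y : ι} {W : Finset ι} {h K : ℕ}

/-- the edges of type A -/
def TA (V : Views ι) (G : SimpleGraph ι) (y : ι) (W : Finset ι) (q : ι × ι) : Prop :=
  G.Adj q.1 q.2 ∧ ¬ near G y q.1 q.2 ∧ q.1 ∈ W ∧ q.2 ∈ W ∧ (0 < V.a y q.1 ↔ 0 < V.a y q.2) ∧
    V.r y q.1 < V.r y q.2

/-- the edges of type B -/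
def TB (V : Views ι) (G : SimpleGraph ι) (y : ι) (W : Finset ι) (q : ι × ι) : Prop :=
  G.Adj q.1 q.2 ∧ q.1 ≠ y ∧ q.2 ≠ y ∧ ¬ near G y q.1 q.2 ∧ (q.1 ∈ W ∨ q.2 ∈ W) ∧
    ¬ (q.1 ∈ W ∧ q.2 ∈ W ∧ (0 < V.a y q.1 ↔ 0 < V.a y q.2))

/-- few edges of type B -/
lemma typeB (hne : W.Nonempty) (hWy : ∀ x ∈ W, x ≠ y)
    (hh : ∀ x ∈ W, ∀ τ : Prop,
      far V G y x + cnt (fun q : ι => G.Adj x q ∧ q ≠ y ∧ (ns V y x q ↔ τ)) ≤ h)
    (hconv : ∀ u ∈ W, ∀ v ∈ W, ∀ z, z ≠ y → V.r y u < V.r y z → V.r y z < V.r y v → z ∈ W) :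
    cnt (TB V G y W) ≤ 4 * h := by
  classical
  obtain ⟨w, hw, hwmin⟩ := Finset.exists_min_image W (V.r y) hne
  obtain ⟨w', hw', hwmax⟩ := Finset.exists_max_image W (V.r y) hne
  have hinj : ∀ x z, x ≠ y → z ≠ y → V.r y x = V.r y z → x = z := by
    intro x z hx hz hr
    by_contra hxz
    exact V.hr y x z hx.symm hz.symm hxz hr
  obtain ⟨S1, hS1⟩ : ∃ S1 : ι → Prop, ∀ z, S1 z ↔ if z = w then 0 < V.a y w else ns V y w z :=
    ⟨_, fun _ => Iff.rfl⟩
  obtain ⟨S2, hS2⟩ : ∃ S2 : ι → Prop, ∀ z, S2 z ↔ if z = w' then ¬ 0 < V.a y w' else ns V y w' z :=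
    ⟨_, fun _ => Iff.rfl⟩
  have l1 : cnt (fun q : ι × ι => G.Adj q.1 q.2 ∧ q.1 ≠ y ∧ q.2 ≠ y ∧ ¬ near G y q.1 q.2 ∧
      S1 q.1 ∧ ¬ S1 q.2) ≤ h :=
    (level V G (hWy w hw) S1 (fun z hz _ => by rw [hS1, if_neg hz])).trans (hh w hw _)
  have l2 : cnt (fun q : ι × ι => G.Adj q.1 q.2 ∧ q.1 ≠ y ∧ q.2 ≠ y ∧ ¬ near G y q.1 q.2 ∧
      S2 q.1 ∧ ¬ S2 q.2) ≤ h :=
    (level V G (hWy w' hw') S2 (fun z hz _ => by rw [hS2, if_neg hz])).trans (hh w' hw' _)
  have l1' := (cnt_swap (fun q : ι × ι => G.Adj q.1 q.2 ∧ q.1 ≠ y ∧ q.2 ≠ y ∧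
    ¬ near G y q.1 q.2 ∧ S1 q.1 ∧ ¬ S1 q.2)).trans l1
  have l2' := (cnt_swap (fun q : ι × ι => G.Adj q.1 q.2 ∧ q.1 ≠ y ∧ q.2 ≠ y ∧
    ¬ near G y q.1 q.2 ∧ S2 q.1 ∧ ¬ S2 q.2)).trans l2
  have f1 : ∀ z ∈ W, (S1 z ↔ 0 < V.a y z) := by
    intro z hz
    rw [hS1]
    by_cases hzw : z = w
    · rw [if_pos hzw, hzw]
    · rw [if_neg hzw]
      unfold ns
      have h1 : V.r y w < V.r y z := lt_of_le_of_ne (hwmin z hz) fun hr =>
        hzw (hinj w z (hWy w hw) (hWy z hz) hr).symm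
      exact mul_pos_iff_of_pos_right (by linarith)
  have f2 : ∀ z ∈ W, (S2 z ↔ ¬ 0 < V.a y z) := by
    intro z hz
    rw [hS2]
    by_cases hzw : z = w'
    · rw [if_pos hzw, hzw]
    · rw [if_neg hzw]
      unfold ns
      have h1 : V.r y z < V.r y w' := lt_of_le_of_ne (hwmax z hz) fun hr =>
        hzw (hinj z w' (hWy z hz) (hWy w' hw') hr)
      have h2 := V.ha y z (hWy z hz).symm
      rw [not_lt]
      constructor
      · intro h3
        by_contra h4
        rw [not_le] at h4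
        have := mul_neg_of_pos_of_neg h4 (by linarith : V.r y z - V.r y w' < 0)
        linarith
      · intro h3
        exact mul_pos_of_neg_of_neg (lt_of_le_of_ne h3 h2) (by linarith)
  have f3 : ∀ z, z ∉ W → z ≠ y → (S1 z ↔ S2 z) := by
    intro z hz hzy
    have hzw : z ≠ w := fun hc => hz (hc ▸ hw)
    have hzw' : z ≠ w' := fun hc => hz (hc ▸ hw')
    rw [hS1, hS2, if_neg hzw, if_neg hzw']
    unfold ns
    have h0 := hwmin w' hw'
    have h1 : V.r y z < V.r y w ∨ V.r y w' < V.r y z := by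
      by_contra hcon
      push Not at hcon
      obtain ⟨h2, h3⟩ := hcon
      have h4 : V.r y w < V.r y z := lt_of_le_of_ne h2 fun hr =>
        hzw (hinj w z (hWy w hw) hzy hr).symm
      have h5 : V.r y z < V.r y w' := lt_of_le_of_ne h3 fun hr =>
        hzw' (hinj z w' hzy (hWy w' hw') hr)
      exact hz (hconv w hw w' hw' z hzy h4 h5)
    rcases h1 with h2 | h2
    · have e1 : V.r y z - V.r y w < 0 := by linarith
      have e2 : V.r y z - V.r y w' < 0 := by linarith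
      constructor
      · intro h3
        have h4 : V.a y z < 0 := by
          by_contra h4
          rw [not_lt] at h4
          have := mul_nonpos_of_nonneg_of_nonpos h4 e1.le
          linarith
        exact mul_pos_of_neg_of_neg h4 e2
      · intro h3
        have h4 : V.a y z < 0 := by
          by_contra h4
          rw [not_lt] at h4
          have := mul_nonpos_of_nonneg_of_nonpos h4 e2.le
          linarith
        exact mul_pos_of_neg_of_neg h4 e1
    · have e1 : 0 < V.r y z - V.r y w := by linarith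
      have e2 : 0 < V.r y z - V.r y w' := by linarith
      rw [mul_pos_iff_of_pos_right e1, mul_pos_iff_of_pos_right e2]
  have key : ∀ q : ι × ι, TB V G y W q →
      ((G.Adj q.1 q.2 ∧ q.1 ≠ y ∧ q.2 ≠ y ∧ ¬ near G y q.1 q.2 ∧ S1 q.1 ∧ ¬ S1 q.2) ∨
        (G.Adj q.2 q.1 ∧ q.2 ≠ y ∧ q.1 ≠ y ∧ ¬ near G y q.2 q.1 ∧ S1 q.2 ∧ ¬ S1 q.1)) ∨
      ((G.Adj q.1 q.2 ∧ q.1 ≠ y ∧ q.2 ≠ y ∧ ¬ near G y q.1 q.2 ∧ S2 q.1 ∧ ¬ S2 q.2) ∨
        (G.Adj q.2 q.1 ∧ q.2 ≠ y ∧ q.1 ≠ y ∧ ¬ near G y q.2 q.1 ∧ S2 q.2 ∧ ¬ S2 q.1)) := by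
    rintro ⟨p, q⟩ ⟨h1, h2, h3, h4, h5, h6⟩
    simp only at h1 h2 h3 h4 h5 h6 ⊢
    have h4' : ¬ near G y q p := fun hc => h4 (Or.symm hc)
    have hS : (S1 p ∧ ¬ S1 q) ∨ (S1 q ∧ ¬ S1 p) ∨ (S2 p ∧ ¬ S2 q) ∨ (S2 q ∧ ¬ S2 p) := by
      by_cases hp : p ∈ W
      · by_cases hq : q ∈ W
        · have e1 := f1 p hp
          have e2 := f1 q hq
          tauto
        · have e1 := f1 p hp
          have e2 := f2 p hp
          have e3 := f3 q hq h3
          tauto
      · have hq : q ∈ W := by tauto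
        have e1 := f1 q hq
        have e2 := f2 q hq
        have e3 := f3 p hp h2
        tauto
    rcases hS with hc | hc | hc | hc
    · exact Or.inl (Or.inl ⟨h1, h2, h3, h4, hc.1, hc.2⟩)
    · exact Or.inl (Or.inr ⟨h1.symm, h3, h2, h4', hc.1, hc.2⟩)
    · exact Or.inr (Or.inl ⟨h1, h2, h3, h4, hc.1, hc.2⟩)
    · exact Or.inr (Or.inr ⟨h1.symm, h3, h2, h4', hc.1, hc.2⟩)
  have c1 := cnt_or key
  have c2 := cnt_or (p := fun q : ι × ι =>
    (G.Adj q.1 q.2 ∧ q.1 ≠ y ∧ q.2 ≠ y ∧ ¬ near G y q.1 q.2 ∧ S1 q.1 ∧ ¬ S1 q.2) ∨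
        (G.Adj q.2 q.1 ∧ q.2 ≠ y ∧ q.1 ≠ y ∧ ¬ near G y q.2 q.1 ∧ S1 q.2 ∧ ¬ S1 q.1))
    (fun q hq => hq)
  have c3 := cnt_or (p := fun q : ι × ι =>
    (G.Adj q.1 q.2 ∧ q.1 ≠ y ∧ q.2 ≠ y ∧ ¬ near G y q.1 q.2 ∧ S2 q.1 ∧ ¬ S2 q.2) ∨
        (G.Adj q.2 q.1 ∧ q.2 ≠ y ∧ q.1 ≠ y ∧ ¬ near G y q.2 q.1 ∧ S2 q.2 ∧ ¬ S2 q.1))
    (fun q hq => hq)
  simp only at l1' l2'
  omega

/-- few edges of type A over one place -/
lemma over_x (hWy : ∀ x ∈ W, x ≠ y) {x : ι} (hx : x ∈ W) :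
    cnt (fun q : ι × ι => TA V G y W q ∧ V.r y q.1 ≤ V.r y x ∧ V.r y x < V.r y q.2) ≤
      far V G y x + cnt (fun q : ι => G.Adj x q ∧ q ≠ y ∧ (ns V y x q ↔ 0 < V.a y x)) := by
  classical
  have hinj : ∀ x z, x ≠ y → z ≠ y → V.r y x = V.r y z → x = z := by
    intro x z hx hz hr
    by_contra hxz
    exact V.hr y x z hx.symm hz.symm hxz hr
  have hor := cnt_or
    (p := fun q : ι × ι => TA V G y W q ∧ V.r y q.1 ≤ V.r y x ∧ V.r y x < V.r y q.2)
    (q := fun q : ι × ι => (TA V G y W q ∧ V.r y q.1 ≤ V.r y x ∧ V.r y x < V.r y q.2) ∧ q.1 ≠ x)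
    (r := fun q : ι × ι => (TA V G y W q ∧ V.r y q.1 ≤ V.r y x ∧ V.r y x < V.r y q.2) ∧ q.1 = x)
    (by
      intro q hq
      by_cases hc : q.1 = x
      · exact Or.inr ⟨hq, hc⟩
      · exact Or.inl ⟨hq, hc⟩)
  refine hor.trans (Nat.add_le_add ?_ ?_) <;> clear hor
  · unfold far
    refine cnt_le_of_inj (fun q : ι × ι => if 0 < V.chi y x q.1 then q else (q.2, q.1)) ?_ ?_
    · rintro ⟨p, q⟩ ⟨⟨⟨h1, h2, h3, h4, h5, h6⟩, h7, h8⟩, h9⟩
      simp only at h1 h2 h3 h4 h5 h6 h7 h8 h9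
      have hpy := hWy p h3
      have hqy := hWy q h4
      have hqx : q ≠ x := by
        rintro rfl
        exact lt_irrefl _ h8
      have h10 : V.r y p < V.r y x := lt_of_le_of_ne h7 fun hr => h9 (hinj p x hpy (hWy x hx) hr)
      have e1 : V.r y p - V.r y x < 0 := by linarith
      have e2 : 0 < V.r y q - V.r y x := by linarith
      have hap := V.ha y p hpy.symm
      have haq := V.ha y q hqy.symm
      have hax := V.ha y x (hWy x hx).symm
      have h2' : ¬ near G y q p := fun hc => h2 (Or.symm hc)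
      have opp : (0 < V.chi y x p → V.chi y x q < 0) ∧ (¬ 0 < V.chi y x p →
          0 < V.chi y x q ∧ V.chi y x p < 0) := by
        unfold Views.chi
        rcases lt_or_gt_of_ne hap with a1 | a1
        · have a2 : V.a y q < 0 := by
            refine lt_of_le_of_ne ?_ haq
            rw [← not_lt, ← h5]
            exact not_lt.2 a1.le
          have m1 := mul_pos_of_neg_of_neg a1 e1
          have m2 := mul_neg_of_neg_of_pos a2 e2
          rcases lt_or_gt_of_ne hax with a3 | a3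
          · have n1 := (pos_cases m1).2 a3
            have n2 := (neg_cases m2).2 a3
            exact ⟨fun hc => absurd hc (not_lt.2 n1.le), fun _ => ⟨n2, n1⟩⟩
          · have n1 := (pos_cases m1).1 a3
            have n2 := (neg_cases m2).1 a3
            exact ⟨fun _ => n2, fun hc => absurd n1 hc⟩
        · have a2 : 0 < V.a y q := h5.1 a1
          have m1 := mul_neg_of_pos_of_neg a1 e1
          have m2 := mul_pos a2 e2
          rcases lt_or_gt_of_ne hax with a3 | a3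
          · have n1 := (neg_cases m1).2 a3
            have n2 := (pos_cases m2).2 a3
            exact ⟨fun _ => n2, fun hc => absurd n1 hc⟩
          · have n1 := (neg_cases m1).1 a3
            have n2 := (pos_cases m2).1 a3
            exact ⟨fun hc => absurd hc (not_lt.2 n1.le), fun _ => ⟨n2, n1⟩⟩
      show G.Adj _ _ ∧ _
      by_cases hc : 0 < V.chi y x p
      · simp only [if_pos hc]
        exact ⟨h1, h2, hpy, h9, hqy, hqx, hc, opp.1 hc⟩
      · simp only [if_neg hc]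
        exact ⟨h1.symm, h2', hqy, hqx, hpy, h9, (opp.2 hc).1, (opp.2 hc).2⟩
    · rintro ⟨p, q⟩ ⟨p', q'⟩ ⟨⟨⟨_, _, _, _, _, h6⟩, _⟩, _⟩ ⟨⟨⟨_, _, _, _, _, h6'⟩, _⟩, _⟩ hf
      simp only at h6 h6' hf
      split_ifs at hf with c1 c2 c2
      · exact hf
      · simp only [Prod.mk.injEq] at hf
        rw [hf.1, hf.2] at h6
        exact absurd h6 (not_lt.2 h6'.le)
      · simp only [Prod.mk.injEq] at hf
        rw [← hf.1, ← hf.2] at h6'
        exact absurd h6 (not_lt.2 h6'.le)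
      · simp only [Prod.mk.injEq] at hf ⊢
        exact ⟨hf.2, hf.1⟩
  · refine cnt_le_of_inj (fun q : ι × ι => q.2) ?_ ?_
    · rintro ⟨p, q⟩ ⟨⟨⟨h1, h2, h3, h4, h5, h6⟩, h7, h8⟩, h9⟩
      simp only at h1 h2 h3 h4 h5 h6 h7 h8 h9 ⊢
      subst h9
      refine ⟨h1, hWy q h4, ?_⟩
      unfold ns
      rw [mul_pos_iff_of_pos_right (by linarith)]
      exact h5.symm
    · rintro ⟨p, q⟩ ⟨p', q'⟩ ⟨_, h9⟩ ⟨_, h9'⟩ hf
      simp only at h9 h9' hf ⊢
      rw [h9, h9', hf]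

/-- the number of edges of type A -/
lemma typeA (hWy : ∀ x ∈ W, x ≠ y)
    (hh : ∀ x ∈ W, ∀ τ : Prop,
      far V G y x + cnt (fun q : ι => G.Adj x q ∧ q ≠ y ∧ (ns V y x q ↔ τ)) ≤ h) :
    2 * ((K + 1) * cnt (TA V G y W)) ≤ W.card * (2 * h + K * (K + 1)) := by
  classical
  have hinj : ∀ x z, x ≠ y → z ≠ y → V.r y x = V.r y z → x = z := by
    intro x z hx hz hr
    by_contra hxz
    exact V.hr y x z hx.symm hz.symm hxz hr
  obtain ⟨A, hA⟩ : ∃ A : Finset (ι × ι), A = univ.filter (TA V G y W) := ⟨_, rfl⟩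
  have hcA : cnt (TA V G y W) = A.card := by
    rw [hA]
    unfold cnt
    congr
  have hmA : ∀ q ∈ A, TA V G y W q := by
    intro q hq
    rw [hA, Finset.mem_filter] at hq
    exact hq.2
  obtain ⟨len, hlen⟩ : ∃ len : ι × ι → ℕ, ∀ q, len q =
    (W.filter fun x => V.r y q.1 ≤ V.r y x ∧ V.r y x < V.r y q.2).card := ⟨_, fun _ => rfl⟩
  have hlen1 : ∀ q ∈ A, 1 ≤ len q := by
    intro q hq
    obtain ⟨h1, h2, h3, h4, h5, h6⟩ := hmA q hq
    rw [hlen]
    refine Finset.card_pos.2 ⟨q.1, ?_⟩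
    rw [Finset.mem_filter]
    exact ⟨h3, le_rfl, h6⟩
  -- the sum of the lengths
  have s1 : ∑ q ∈ A, len q ≤ W.card * h := by
    have e1 : ∑ q ∈ A, len q = ∑ x ∈ W, (A.filter fun q =>
        V.r y q.1 ≤ V.r y x ∧ V.r y x < V.r y q.2).card := by
      simp only [hlen, Finset.card_filter]
      exact Finset.sum_comm
    rw [e1]
    have e2 : ∀ x ∈ W, (A.filter fun q =>
        V.r y q.1 ≤ V.r y x ∧ V.r y x < V.r y q.2).card ≤ h := by
      intro x hx
      refine le_trans ?_ ((over_x V G hWy hx).trans (hh x hx _))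
      refine card_le_cnt _ fun q hq => ?_
      rw [Finset.mem_filter] at hq
      exact ⟨hmA q hq.1, hq.2⟩
    calc _ ≤ ∑ x ∈ W, h := Finset.sum_le_sum e2
      _ = W.card * h := by rw [Finset.sum_const, smul_eq_mul]
  -- packing
  have s2 : 2 * ∑ q ∈ A, (K + 1 - len q) ≤ W.card * (K * (K + 1)) := by
    have e1 : ∑ q ∈ A, (K + 1 - len q) =
        ∑ p ∈ W, ∑ q ∈ A.filter (fun q => q.1 = p), (K + 1 - len q) :=
      (Finset.sum_fiberwise_of_maps_to (fun q hq => (hmA q hq).2.2.1) _).symm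
    rw [e1, Finset.mul_sum]
    calc _ ≤ ∑ p ∈ W, K * (K + 1) := by
          refine Finset.sum_le_sum fun p hp => ?_
          refine pack _ len (fun q hq => hlen1 q (Finset.mem_filter.1 hq).1) ?_ K
          -- injectivity
          have key : ∀ q ∈ A, ∀ q' ∈ A, q.1 = p → q'.1 = p → V.r y q.2 < V.r y q'.2 →
              len q < len q' := by
            intro q hq q' hq' h1 h1' h2
            rw [hlen, hlen]
            refine Finset.card_lt_card ⟨?_, ?_⟩
            · intro x hx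
              rw [Finset.mem_filter] at hx ⊢
              rw [h1'] at *
              rw [h1] at hx
              exact ⟨hx.1, hx.2.1, hx.2.2.trans h2⟩
            · intro hsub
              have h3 : q.2 ∈ W.filter fun x => V.r y q'.1 ≤ V.r y x ∧ V.r y x < V.r y q'.2 := by
                rw [Finset.mem_filter]
                refine ⟨(hmA q hq).2.2.2.1, ?_, h2⟩
                rw [h1', ← h1]
                exact (hmA q hq).2.2.2.2.2.le
              have h4 := hsub h3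
              rw [Finset.mem_filter] at h4
              exact lt_irrefl _ h4.2.2
          intro q hq q' hq' hl
          rw [Finset.mem_filter] at hq hq'
          rcases lt_trichotomy (V.r y q.2) (V.r y q'.2) with h1 | h1 | h1
          · have := key q hq.1 q' hq'.1 hq.2 hq'.2 h1
            omega
          · exact Prod.ext (by rw [hq.2, hq'.2])
              (hinj _ _ (hWy _ (hmA q hq.1).2.2.2.1) (hWy _ (hmA q' hq'.1).2.2.2.1) h1)
          · have := key q' hq'.1 q hq.1 hq'.2 hq.2 h1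
            omega
      _ = W.card * (K * (K + 1)) := by rw [Finset.sum_const, smul_eq_mul]
  have s3 : (K + 1) * A.card ≤ ∑ q ∈ A, len q + ∑ q ∈ A, (K + 1 - len q) := by
    rw [← Finset.sum_add_distrib]
    calc (K + 1) * A.card = ∑ q ∈ A, (K + 1) := by rw [Finset.sum_const, smul_eq_mul, mul_comm]
      _ ≤ _ := Finset.sum_le_sum fun q _ => by omega
  rw [hcA]
  calc 2 * ((K + 1) * A.card) ≤ 2 * (∑ q ∈ A, len q + ∑ q ∈ A, (K + 1 - len q)) :=
        Nat.mul_le_mul_left 2 s3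
    _ = 2 * ∑ q ∈ A, len q + 2 * ∑ q ∈ A, (K + 1 - len q) := by ring
    _ ≤ 2 * (W.card * h) + W.card * (K * (K + 1)) := by omega
    _ = _ := by ring

end main

end Pool.Agent.Q150.GL.Edge

namespace Pool.Agent.Q150.GL

open Finset Pool.Agent.Q165.GL Edge

/-- JOB EDGE -/
theorem edge : S_EDGE := by
  classical
  intro ι _ V G y W h K hne hWy hh hconv
  have hB := typeB V G hne hWy hh hconv
  have hA := typeA (K := K) V G hWy hh
  have h0 := at_y G (y := y) W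
  have hinj : ∀ x z, x ≠ y → z ≠ y → V.r y x = V.r y z → x = z := by
    intro x z hx hz hr
    by_contra hxz
    exact V.hr y x z hx.symm hz.symm hxz hr
  have c1 : cnt (fun q : ι × ι => G.Adj q.1 q.2 ∧ (q.1 ∈ W ∨ q.2 ∈ W)) ≤
      cnt (fun q : ι × ι => G.Adj q.1 q.2 ∧ (q.1 ∈ W ∨ q.2 ∈ W) ∧
        (q.1 = y ∨ q.2 = y ∨ near G y q.1 q.2)) +
      cnt (fun q : ι × ι => TB V G y W q ∨ (TA V G y W q ∨ TA V G y W (q.2, q.1))) := by
    refine cnt_or ?_
    rintro ⟨p, q⟩ ⟨h1, h2⟩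
    simp only at h1 h2
    by_cases h3 : p = y ∨ q = y ∨ near G y p q
    · exact Or.inl ⟨h1, h2, h3⟩
    · push Not at h3
      right
      by_cases h4 : p ∈ W ∧ q ∈ W ∧ (0 < V.a y p ↔ 0 < V.a y q)
      · right
        obtain ⟨h5, h6, h7⟩ := h4
        rcases lt_trichotomy (V.r y p) (V.r y q) with h8 | h8 | h8
        · exact Or.inl ⟨h1, h3.2.2, h5, h6, h7, h8⟩
        · have := hinj p q h3.1 h3.2.1 h8
          rw [this] at h1
          exact absurd h1 (G.irrefl)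
        · exact Or.inr ⟨h1.symm, fun hc => h3.2.2 (Or.symm hc), h6, h5, h7.symm, h8⟩
      · left
        exact ⟨h1, h3.1, h3.2.1, h3.2.2, h2, h4⟩
  have c2 := cnt_or (p := fun q : ι × ι => TB V G y W q ∨ (TA V G y W q ∨ TA V G y W (q.2, q.1)))
    (fun q hq => hq)
  have c3 := cnt_or (p := fun q : ι × ι => TA V G y W q ∨ TA V G y W (q.2, q.1))
    (fun q hq => hq)
  have c4 := cnt_swap (TA V G y W)
  have hB' : cnt (fun q : ι × ι => TB V G y W q) ≤ 4 * h := hB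
  have h5 : cnt (fun q : ι × ι => G.Adj q.1 q.2 ∧ (q.1 ∈ W ∨ q.2 ∈ W)) ≤
      2 * dd G y + 4 * h + 2 * cnt (TA V G y W) := by
    have c5 : cnt (fun q : ι × ι => TA V G y W q) = cnt (TA V G y W) := rfl
    omega
  calc (K + 1) * cnt (fun q : ι × ι => G.Adj q.1 q.2 ∧ (q.1 ∈ W ∨ q.2 ∈ W))
      ≤ (K + 1) * (2 * dd G y + 4 * h + 2 * cnt (TA V G y W)) := Nat.mul_le_mul_left _ h5
    _ = (K + 1) * (4 * h + 2 * dd G y) + 2 * ((K + 1) * cnt (TA V G y W)) := by ring
    _ ≤ (K + 1) * (4 * h + 2 * dd G y) + W.card * (2 * h + K * (K + 1)) := by omega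
    _ = _ := by ring

end Pool.Agent.Q150.GL
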