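import Pool.Agent.Q269.GL.StL
import Pool.Agent.Q151.GJ.LAR

/-!
# Project GL (helper269), job GL-KLR: the joint law of the kernels

The conditional independence is adapted from `Pool/Agent/Q151/GJ/LAR.lean`, `Pool/Agent/Q151/GJ/Tr.lean` (helper151).
-/

set_option autoImplicit false
set_option linter.all false

open scoped Classical
open Finset

namespace Pool.Agent.Q150.GL

open Pool.Agent.Q269.GR (F2 cf ev Un Eb dl IsRt gg Bt AA MM ts HU HG Herm S_UNR)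
open Pool.Agent.Q285.GR (avg avg_le avg_ge cf_add ev_add add_pow_two_pow cf_pow AA_add nice_inj)
open Pool.Agent.Q269.GJ (W0 lap eqn Kn Sy pai Gen V hf gx qf Ncj KM S_SUR)
open Pool.Agent.Q151.GJ (trans Kn_congr KM_add compl_iff gen_of)
open Pool.Agent.Q269.GL

/-- the moments for the order `r` -/
noncomputable def cR (r : ℕ) (t : ℕ) : ℝ :=
  if Un r then ((2 : ℝ) ^ (orderOf (2 : ZMod r) / 2)) ^ (t ^ 2) else 1

/-- change of the instance of finiteness -/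
theorem swap2 {X : Type} (i1 i2 : Fintype X) (f : X → ℝ) (c e : ℝ)
    (h : |(∑ m ∈ @Finset.univ X i1, f m) - c * (@Fintype.card X i1 : ℝ)| ≤
      e * (@Fintype.card X i1 : ℝ)) :
    |(∑ m ∈ @Finset.univ X i2, f m) - c * (@Fintype.card X i2 : ℝ)| ≤
      e * (@Fintype.card X i2 : ℝ) := by
  have e : i1 = i2 := Subsingleton.elim i1 i2
  subst e
  exact h

/-- the facts on the laws -/
theorem law_data (h4 : S_LWU) (h5 : S_LWN) (h7 : S_UNR) {F : Type} [Field F] [Fintype F]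
    [Algebra F2 F] {r : ℕ} {ξ : F} (hξ : IsRt r ξ) :
    IsLw (Fintype.card F) (lawR r) (cR r) ∧
    (∃ C : ℝ, ∀ t, cR r t ^ 2 ≤ C * (Fintype.card F : ℝ) ^ (t ^ 2)) ∧
    ∀ j, 0 ≤ lawR r j ∧ lawR r j ≤ 1 := by
  obtain ⟨hf2, -, -, -, -, -, hun⟩ := h7 r F ξ hξ
  have hle : ∀ p : ℕ → ℝ, (∀ j, 0 < p j) → HasSum p 1 → ∀ j, 0 ≤ p j ∧ p j ≤ 1 := by
    intro p hp hs j
    exact ⟨(hp j).le, le_hasSum hs j fun i _ => (hp i).le⟩
  by_cases hu : Un r
  · obtain ⟨hcard, -⟩ := hun hu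
    obtain ⟨Q, hQ⟩ : ∃ Q : ℝ, Q = (2 : ℝ) ^ (orderOf (2 : ZMod r) / 2) := ⟨_, rfl⟩
    have hQ1 : 1 < Q := by
      rw [hQ]
      exact one_lt_pow₀ (by norm_num) (by omega)
    have e1 : lawR r = lawU Q := by
      unfold lawR
      rw [if_pos hu, hQ]
    have e2 : cR r = fun t => Q ^ (t ^ 2) := by
      funext t
      unfold cR
      rw [if_pos hu, hQ]
    have e3 : (Fintype.card F : ℝ) = Q ^ 2 := by
      rw [hcard, hQ]
      push_cast
      rfl
    obtain ⟨hp, hl, hs⟩ := h4 Q hQ1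
    rw [e1, e2, e3]
    refine ⟨hl, ⟨1, fun t => ?_⟩, hle _ hp hs⟩
    rw [one_mul]
    refine le_of_eq ?_
    simp only
    rw [← pow_mul, ← pow_mul, mul_comm]
  · obtain ⟨q, hq⟩ : ∃ q : ℝ, q = (2 : ℝ) ^ orderOf (2 : ZMod r) := ⟨_, rfl⟩
    have hq1 : 1 < q := by
      rw [hq]
      exact one_lt_pow₀ (by norm_num) (by omega)
    have e1 : lawR r = lawN q := by
      unfold lawR
      rw [if_neg hu, hq]
    have e2 : cR r = fun t => 1 := by
      funext t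
      unfold cR
      rw [if_neg hu]
    have e3 : (Fintype.card F : ℝ) = q := by
      rw [hξ.card, hq]
      push_cast
      rfl
    obtain ⟨hp, hl, hs⟩ := h5 q hq1
    rw [e1, e2, e3]
    refine ⟨hl, ⟨1, fun t => ?_⟩, hle _ hp hs⟩
    rw [one_mul, one_pow]
    exact one_le_pow₀ hq1.le

theorem Gen_mono {J : Type} {Λ : Finset J} {n m m' : ℕ} {x : J → Fin n → Fin n → F2}
    (h : Gen Λ x m) (hm : m' ≤ m) : Gen Λ x m' := fun φ hφ => hm.trans (h φ hφ)

theorem NiceC_mono {ι : Type} [LinearOrder ι] [Fintype ι] {d : ι → ℕ} {mv : Finset ι} {F : Type}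
    [Field F] [Algebra F2 F] {n C C' M M' r : ℕ} {Fx : ι → ι → F} {x : ι → Fin n → Fin n → F2}
    (h : NiceC d mv C M r Fx x) (hC : C' ≤ C) (hM : M' ≤ M) : NiceC d mv C' M' r Fx x :=
  ⟨h.inj1, h.inj2, Gen_mono h.gen (Nat.add_le_add (Nat.mul_le_mul_right _ hC) hM)⟩

theorem nice_gen' {ι : Type} [LinearOrder ι] [Fintype ι] {d : ι → ℕ} {mv : Finset ι} {n r C M : ℕ}
    {x : ι → Fin n → Fin n → F2} (S : Finset {i : ι // r ∣ d i})
    (hS : ∀ i, i ∈ S ↔ i.1 ∉ mv)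
    (h : Gen (mv.filter fun i => r ∣ d i) x
      (C * ((univ : Finset ι).filter fun i => i ∉ mv ∧ r ∣ d i).card + M)) :
    Gen Sᶜ (fun i => x i.1) (C * S.card + M) := by
  have hc : S.card = ((univ : Finset ι).filter fun i => i ∉ mv ∧ r ∣ d i).card := by
    rw [← card_map (Function.Embedding.subtype fun i => r ∣ d i)]
    congr 1
    ext x
    rw [mem_map, mem_filter]
    constructor
    · rintro ⟨y, hy, rfl⟩
      exact ⟨mem_univ _, (hS y).1 hy, y.2⟩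
    · rintro ⟨-, h1, h2⟩
      exact ⟨⟨x, h2⟩, (hS _).2 h1, rfl⟩
  rw [hc]
  intro φ hφ
  refine (h φ hφ).trans (le_of_eq ?_)
  rw [← card_map (Function.Embedding.subtype fun i => r ∣ d i)]
  congr 1
  ext x
  rw [mem_map, mem_filter, mem_filter]
  constructor
  · rintro ⟨⟨h1, h2⟩, h3⟩
    refine ⟨⟨x, h2⟩, mem_filter.2 ⟨?_, h3⟩, rfl⟩
    rw [mem_compl, hS]
    exact fun h6 => h6 h1
  · rintro ⟨y, hy, rfl⟩
    rw [mem_filter, mem_compl, hS, not_not] at hy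
    exact ⟨⟨hy.1, y.2⟩, hy.2⟩

/-- the moments over the translations -/
theorem meanh (hKLU : S_KLU) (hKLG : S_KLG) (hUNR : S_UNR) {n : ℕ} (hno : Odd n) (hn3 : 3 ≤ n)
    {F : Type} [Field F] [Fintype F] [Algebra F2 F] {r : ℕ} {ξ : F} (hξ : IsRt r ξ)
    (h : ℕ) (δ : ℝ) (hδ : 0 < δ) : ∃ M : ℕ,
    ∀ (ι : Type) [LinearOrder ι] [Fintype ι] (N : ℕ) (d : ι → ℕ) (mv : Finset ι)
    (A0 : ι → ι → F2) (Fx : ι → ι → F) (ow : ι → F)
    (x : ι → Fin n → Fin n → F2) (hx : ∀ i, Sy (x i)) (hH : Herm d mv r Fx ow)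
    (hN : NiceC d mv (4 * n * h) M r Fx x)
    (T : ({i : ι // r ∣ d i} → {i : ι // r ∣ d i} → F) → Bt N d)
    (hT0 : ∀ m i j, ∑ c, T m i j c = 0)
    (hT1 : ∀ m (i j : {i : ι // r ∣ d i}), i < j → ev ξ⁻¹ (T m i.1 j.1) = m i j)
    (hT2 : ∀ m (i j : {i : ι // r ∣ d i}), i < j → ev ξ (T m i.1 j.1) =
      if Un r then m i j ^ 2 ^ (orderOf (2 : ZMod r) / 2) else m j i) (s : Bt N d)
    [inst : Fintype ({i : ι // r ∣ d i} → {i : ι // r ∣ d i} → F)],
    |∑ m, (Nat.card (KM N d mv r A0 Fx ow x ξ (s + T m)) : ℝ) ^ h -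
      (∑ t ∈ range (h + 1), (NS F h t : ℝ) * cR r t) *
        Fintype.card ({i : ι // r ∣ d i} → {i : ι // r ∣ d i} → F)| ≤
      δ * Fintype.card ({i : ι // r ∣ d i} → {i : ι // r ∣ d i} → F) := by
  obtain ⟨hf2, hξi, hF4, -, -, -, hun⟩ := hUNR r F ξ hξ
  by_cases hu : Un r
  · obtain ⟨Q, hQ⟩ : ∃ Q : ℕ, Q = 2 ^ (orderOf (2 : ZMod r) / 2) := ⟨_, rfl⟩
    obtain ⟨hcard, hx1, hx2, hev⟩ := hun hu
    rw [← hQ] at hcard hev
    obtain ⟨M, hM⟩ := hKLU F Q hcard n h hno hn3 δ hδ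
    refine ⟨M, fun ι _ _ N d mv A0 Fx ow x hx hH hN T hT0 hT1 hT2 s inst => ?_⟩
    obtain ⟨S, hS⟩ : ∃ S : Finset {i : ι // r ∣ d i}, ∀ i, i ∈ S ↔ i.1 ∉ mv :=
      ⟨univ.filter fun i => i.1 ∉ mv, fun i => by simp⟩
    obtain ⟨B, hB⟩ : ∃ B : {i : ι // r ∣ d i} → {i : ι // r ∣ d i} → F, B = fun i j =>
      if i.1 ∈ mv ∧ j.1 ∈ mv then 0 else Fx i.1 j.1 := ⟨_, rfl⟩
    have hB1 : ∀ i j : {i : ι // r ∣ d i}, ¬ (i.1 ∈ mv ∧ j.1 ∈ mv) → B i j = Fx i.1 j.1 :=
      fun i j h => by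
      rw [hB]
      exact if_neg h
    have hB2 : ∀ i j : {i : ι // r ∣ d i}, (i.1 ∈ mv ∧ j.1 ∈ mv) → B i j = 0 := fun i j h => by
      rw [hB]
      exact if_pos h
    obtain ⟨dd, hdd⟩ : ∃ dd : {i : ι // r ∣ d i} → F, dd = fun i => ow i.1 +
      cf (∑ j, if j = i.1 then 0 else AA N d mv A0 s i.1 j) := ⟨_, rfl⟩
    have hgen := nice_gen' S hS hN.gen
    have hinj1 := nice_inj B S hS hB1 hN.inj1
    have hinj2 := nice_inj (Fx := fun i j => Fx j i) (fun i j => B j i) S hS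
      (fun i j h => hB1 j i fun h' => h ⟨h'.2, h'.1⟩) hN.inj2
    have hmvS : ∀ i j : {i : ι // r ∣ d i}, (i ∈ S ∨ j ∈ S) ↔ ¬ (i.1 ∈ mv ∧ j.1 ∈ mv) := by
      intro i j
      rw [hS, hS]
      tauto
    obtain ⟨hH1, hH2⟩ := hH hu
    rw [← hQ] at hH1 hH2
    obtain ⟨σ, hσ⟩ : ∃ σ : {i : ι // r ∣ d i} → {i : ι // r ∣ d i} → F, σ = fun i j =>
      ev ξ⁻¹ (s i.1 j.1) := ⟨_, rfl⟩
    have hσ1 : ∀ i j, σ i j = ev ξ⁻¹ (s i.1 j.1) := fun i j => by rw [hσ]
    have hK : ∀ m, KM N d mv r A0 Fx ow x ξ (s + T m) =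
        Kn (HU S B Q (σ + m)) dd (fun i => x i.1) := by
      intro m
      unfold KM
      rw [AA_add A0 s (T m) (hT0 m)]
      refine Kn_congr (fun i j hij => ?_) fun i => by rw [hdd]
      unfold MM HU
      by_cases hm : i.1 ∈ mv ∧ j.1 ∈ mv
      · have hSS : ¬ (i ∈ S ∨ j ∈ S) := by rw [hmvS, not_not]; exact hm
        rw [if_pos hm, if_neg hSS]
        by_cases hlt : i < j
        · have h5 : ¬ j.1 < i.1 := fun h => absurd h (not_lt.2 hlt.le)
          rw [if_neg h5, if_pos hlt, Pi.add_apply,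
            Pi.add_apply, ev_add, hT1 m i j hlt, Pi.add_apply, Pi.add_apply, hσ1]
        · have hlt2 : j < i := lt_of_le_of_ne (not_lt.1 hlt) hij
          rw [if_pos (show j.1 < i.1 from hlt2), if_neg hlt, Pi.add_apply, Pi.add_apply, ev_add,
            hT2 m j i hlt2, if_pos hu, Pi.add_apply, Pi.add_apply, hσ1, hQ, add_pow_two_pow, ← hQ,
            (hev _ (s j.1 i.1)).2]
      · rw [if_neg hm, if_pos ((hmvS i j).2 hm), hB1 i j hm]
    have h1 := hM {i : ι // r ∣ d i} S B dd (fun i => x i.1)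
      (fun i => hx i.1)
      (fun i j => by
        by_cases hm : i.1 ∈ mv ∧ j.1 ∈ mv
        · rw [hB2 i j hm, hB2 j i ⟨hm.2, hm.1⟩, zero_pow]
          rw [hQ]
          positivity
        · rw [hB1 i j hm, hB1 j i (fun h => hm ⟨h.2, h.1⟩)]
          exact hH1 i.1 j.1 i.2 j.2 hm)
      (fun i => by
        rw [hdd, hQ]
        simp only
        rw [add_pow_two_pow, cf_pow, ← hQ, hH2 i.1 i.2]) hinj1 hgen
    have h2 : ∑ m, (Nat.card (KM N d mv r A0 Fx ow x ξ (s + T m)) : ℝ) ^ h =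
        ∑ m, (Nat.card (Kn (HU S B Q m) dd (fun i => x i.1)) : ℝ) ^ h := by
      have h3 : ∀ m, (Nat.card (KM N d mv r A0 Fx ow x ξ (s + T m)) : ℝ) ^ h =
        (Nat.card (Kn (HU S B Q (σ + m)) dd (fun i => x i.1)) : ℝ) ^ h := fun m => by
        rw [hK m]
      simp only [h3]
      exact Equiv.sum_comp (Equiv.addLeft σ)
        (fun m => (Nat.card (Kn (HU S B Q m) dd (fun i => x i.1)) : ℝ) ^ h)
    have h3 : ∑ t ∈ range (h + 1), (NS F h t : ℝ) * cR r t =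
        ∑ t ∈ range (h + 1), (NS F h t : ℝ) * (Q : ℝ) ^ (t ^ 2) := by
      refine sum_congr rfl fun t _ => ?_
      unfold cR
      rw [if_pos hu, hQ]
      push_cast
      rfl
    rw [h2, h3]
    exact swap2 _ _ _ _ _ h1
  · obtain ⟨M, hM⟩ := hKLG F n h hno hn3 δ hδ
    refine ⟨M, fun ι _ _ N d mv A0 Fx ow x hx hH hN T hT0 hT1 hT2 s inst => ?_⟩
    obtain ⟨S, hS⟩ : ∃ S : Finset {i : ι // r ∣ d i}, ∀ i, i ∈ S ↔ i.1 ∉ mv :=
      ⟨univ.filter fun i => i.1 ∉ mv, fun i => by simp⟩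
    obtain ⟨B, hB⟩ : ∃ B : {i : ι // r ∣ d i} → {i : ι // r ∣ d i} → F, B = fun i j =>
      if i.1 ∈ mv ∧ j.1 ∈ mv then 0 else Fx i.1 j.1 := ⟨_, rfl⟩
    have hB1 : ∀ i j : {i : ι // r ∣ d i}, ¬ (i.1 ∈ mv ∧ j.1 ∈ mv) → B i j = Fx i.1 j.1 :=
      fun i j h => by
      rw [hB]
      exact if_neg h
    obtain ⟨dd, hdd⟩ : ∃ dd : {i : ι // r ∣ d i} → F, dd = fun i => ow i.1 +
      cf (∑ j, if j = i.1 then 0 else AA N d mv A0 s i.1 j) := ⟨_, rfl⟩
    have hgen := nice_gen' S hS hN.gen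
    have hinj1 := nice_inj B S hS hB1 hN.inj1
    have hinj2 := nice_inj (Fx := fun i j => Fx j i) (fun i j => B j i) S hS
      (fun i j h => hB1 j i fun h' => h ⟨h'.2, h'.1⟩) hN.inj2
    have hmvS : ∀ i j : {i : ι // r ∣ d i}, (i ∈ S ∨ j ∈ S) ↔ ¬ (i.1 ∈ mv ∧ j.1 ∈ mv) := by
      intro i j
      rw [hS, hS]
      tauto
    obtain ⟨σ, hσ⟩ : ∃ σ : {i : ι // r ∣ d i} → {i : ι // r ∣ d i} → F, σ = fun i j =>
      if j.1 < i.1 then ev ξ (s j.1 i.1) else ev ξ⁻¹ (s i.1 j.1) := ⟨_, rfl⟩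
    have hσ1 : ∀ i j, σ i j = if j.1 < i.1 then ev ξ (s j.1 i.1) else ev ξ⁻¹ (s i.1 j.1) :=
      fun i j => by rw [hσ]
    have hK : ∀ m, KM N d mv r A0 Fx ow x ξ (s + T m) =
        Kn (HG S B (σ + m)) dd (fun i => x i.1) := by
      intro m
      unfold KM
      rw [AA_add A0 s (T m) (hT0 m)]
      refine Kn_congr (fun i j hij => ?_) fun i => by rw [hdd]
      unfold MM HG
      by_cases hm : i.1 ∈ mv ∧ j.1 ∈ mv
      · have hSS : ¬ (i ∈ S ∨ j ∈ S) := by rw [hmvS, not_not]; exact hm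
        rw [if_pos hm, if_neg hSS]
        by_cases hlt : i < j
        · have h5 : ¬ j.1 < i.1 := fun h => absurd h (not_lt.2 hlt.le)
          rw [if_neg h5, Pi.add_apply, Pi.add_apply, ev_add, hT1 m i j hlt, Pi.add_apply,
            Pi.add_apply, hσ1, if_neg h5]
        · have hlt2 : j < i := lt_of_le_of_ne (not_lt.1 hlt) hij
          have h5 : j.1 < i.1 := hlt2
          rw [if_pos h5, Pi.add_apply, Pi.add_apply, ev_add,
            hT2 m j i hlt2, if_neg hu, Pi.add_apply, Pi.add_apply, hσ1, if_pos h5]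
      · rw [if_neg hm, if_pos ((hmvS i j).2 hm), hB1 i j hm]
    have h1 := hM {i : ι // r ∣ d i} S B dd (fun i => x i.1)
      (fun i => hx i.1) hinj1 hinj2 (gen_of hgen fun i => compl_iff _ _ S i)
    have h2 : ∑ m, (Nat.card (KM N d mv r A0 Fx ow x ξ (s + T m)) : ℝ) ^ h =
        ∑ m, (Nat.card (Kn (HG S B m) dd (fun i => x i.1)) : ℝ) ^ h := by
      have h3 : ∀ m, (Nat.card (KM N d mv r A0 Fx ow x ξ (s + T m)) : ℝ) ^ h =
        (Nat.card (Kn (HG S B (σ + m)) dd (fun i => x i.1)) : ℝ) ^ h := fun m => by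
        rw [hK m]
      simp only [h3]
      exact Equiv.sum_comp (Equiv.addLeft σ)
        (fun m => (Nat.card (Kn (HG S B m) dd (fun i => x i.1)) : ℝ) ^ h)
    have h3 : ∑ t ∈ range (h + 1), (NS F h t : ℝ) * cR r t =
        ∑ t ∈ range (h + 1), (NS F h t : ℝ) := by
      refine sum_congr rfl fun t _ => ?_
      unfold cR
      rw [if_neg hu, mul_one]
    rw [h2, h3]
    exact swap2 _ _ _ _ _ h1

/-- one root of unity: the law over the translations -/
theorem one (hKLU : S_KLU) (hKLG : S_KLG) (hLMO : S_LMO) (h4 : S_LWU) (h5 : S_LWN) (hUNR : S_UNR)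
    {n : ℕ} (hno : Odd n) (hn3 : 3 ≤ n)
    {F : Type} [Field F] [Fintype F] [Algebra F2 F] {r : ℕ} {ξ : F} (hξ : IsRt r ξ)
    (τ : ℕ) (ε : ℝ) (hε : 0 < ε) : ∃ C M : ℕ,
    ∀ (ι : Type) [LinearOrder ι] [Fintype ι] (N : ℕ) (d : ι → ℕ) (mv : Finset ι)
    (A0 : ι → ι → F2) (Fx : ι → ι → F) (ow : ι → F)
    (x : ι → Fin n → Fin n → F2) (hx : ∀ i, Sy (x i)) (hH : Herm d mv r Fx ow)
    (hN : NiceC d mv C M r Fx x)
    (T : ({i : ι // r ∣ d i} → {i : ι // r ∣ d i} → F) → Bt N d)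
    (hT0 : ∀ m i j, ∑ c, T m i j c = 0)
    (hT1 : ∀ m (i j : {i : ι // r ∣ d i}), i < j → ev ξ⁻¹ (T m i.1 j.1) = m i j)
    (hT2 : ∀ m (i j : {i : ι // r ∣ d i}), i < j → ev ξ (T m i.1 j.1) =
      if Un r then m i j ^ 2 ^ (orderOf (2 : ZMod r) / 2) else m j i) (s : Bt N d)
    [inst : Fintype ({i : ι // r ∣ d i} → {i : ι // r ∣ d i} → F)],
    |∑ m, (if Module.finrank F (KM N d mv r A0 Fx ow x ξ (s + T m)) = τ then (1 : ℝ) else 0) -
      lawR r τ * Fintype.card ({i : ι // r ∣ d i} → {i : ι // r ∣ d i} → F)| ≤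
      ε * Fintype.card ({i : ι // r ∣ d i} → {i : ι // r ∣ d i} → F) := by
  obtain ⟨hl1, hl2, -⟩ := law_data h4 h5 hUNR hξ
  obtain ⟨H, δ, hδ, hH⟩ := hLMO F (lawR r) (cR r) hl1 hl2 τ ε hε
  choose M hM using fun h : ℕ => meanh hKLU hKLG hUNR hno hn3 hξ h δ hδ
  refine ⟨4 * n * H, ∑ h ∈ range (H + 1), M h, ?_⟩
  intro ι _ _ N d mv A0 Fx ow x hx hHm hN T hT0 hT1 hT2 s inst
  have h1 := hH ({i : ι // r ∣ d i} → {i : ι // r ∣ d i} → F)
    (fun m => Module.finrank F (KM N d mv r A0 Fx ow x ξ (s + T m))) (fun h hh => by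
      have hN' : NiceC d mv (4 * n * h) (M h) r Fx x := NiceC_mono hN
        (Nat.mul_le_mul_left _ hh)
        (Finset.single_le_sum (f := M) (fun _ _ => Nat.zero_le _) (mem_range.2 (by omega)))
      have h2 := hM h ι N d mv A0 Fx ow x hx hHm hN' T hT0 hT1 hT2 s
      have h3 : ∀ m, (Nat.card (KM N d mv r A0 Fx ow x ξ (s + T m)) : ℝ) =
          (Fintype.card F : ℝ) ^ Module.finrank F (KM N d mv r A0 Fx ow x ξ (s + T m)) := by
        intro m
        rw [Module.natCard_eq_pow_finrank (K := F), Nat.card_eq_fintype_card]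
        push_cast
        rfl
      simp only [h3] at h2
      exact h2)
  rw [← sum_filter, sum_const, nsmul_eq_mul, mul_one]
  exact h1

/-- JOB GL-KLR -/
theorem t_KLR (h1 : S_KLU) (h2 : S_KLG) (h3 : S_LMO) (h4 : S_LWU) (h5 : S_LWN)
    (h6 : Pool.Agent.Q269.GJ.S_SUR) (h7 : Pool.Agent.Q269.GR.S_UNR) : S_KLR := by
  intro n hno hn3 κ _ r F _ _ _ ξ hξ hNc τ ε hε
  obtain ⟨δ, hδ⟩ : ∃ δ : ℝ, δ = ε / (Fintype.card κ + 1) := ⟨_, rfl⟩
  have hδ0 : 0 < δ := by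
    rw [hδ]
    positivity
  choose C M hCM using fun c => one h1 h2 h3 h4 h5 h7 hno hn3 (hξ c) (τ c) δ hδ0
  refine ⟨∑ c, C c, ∑ c, M c, ?_⟩
  intro ι _ _ N d mv hN hR A0 Fx ow x hx hH hNi f
  obtain ⟨S0, hS0⟩ : ∃ S0 : Finset (Bt N d), S0 = (univ : Finset (Bt N d)).filter
    (fun s => f (AA N d mv A0 s)) := ⟨_, rfl⟩
  have key : ∀ R' : Finset κ,
      |(((univ : Finset (Bt N d)).filter (fun s => f (AA N d mv A0 s) ∧
        ∀ c ∈ R', Module.finrank (F c) (KM N d mv (r c) A0 (Fx c) (ow c) x (ξ c) s) = τ c)).card : ℝ) -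
        (∏ c ∈ R', lawR (r c) (τ c)) * (S0.card : ℝ)| ≤ R'.card * δ * (S0.card : ℝ) := by
    intro R'
    induction R' using Finset.induction_on with
    | empty =>
      rw [prod_empty, one_mul, card_empty, Nat.cast_zero, zero_mul, zero_mul]
      refine le_of_eq ?_
      rw [abs_eq_zero, sub_eq_zero, hS0]
      congr 2
      ext s
      simp
    | insert c₀ R' hc₀ ih =>
      obtain ⟨-, -, hlaw⟩ := law_data h4 h5 h7 (hξ c₀)
      obtain ⟨hp0, hp1⟩ := hlaw (τ c₀)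
      obtain ⟨S', hS'⟩ : ∃ S' : Finset (Bt N d), S' = (univ : Finset (Bt N d)).filter (fun s =>
        f (AA N d mv A0 s) ∧ ∀ c ∈ R', Module.finrank (F c)
          (KM N d mv (r c) A0 (Fx c) (ow c) x (ξ c) s) = τ c) := ⟨_, rfl⟩
      rw [← hS'] at ih
      choose T hT0 hT1 hT2 hT3 using fun m : {i : ι // r c₀ ∣ d i} → {i : ι // r c₀ ∣ d i} → F c₀ =>
        trans h6 h7 N hN d r hR F ξ hξ hNc c₀ m
      have hinv : ∀ m s, s ∈ S' ↔ s + T m ∈ S' := by
        intro m s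
        rw [hS', mem_filter, mem_filter, AA_add A0 s (T m) (hT0 m)]
        have h5 : ∀ c ∈ R', KM N d mv (r c) A0 (Fx c) (ow c) x (ξ c) (s + T m) =
            KM N d mv (r c) A0 (Fx c) (ow c) x (ξ c) s := by
          intro c hc
          have hne : c ≠ c₀ := by
            rintro rfl
            exact hc₀ hc
          exact KM_add A0 (Fx c) (ow c) x (ξ c) s (T m) (hT0 m)
            fun i j hi hj => hT3 m c hne i j hi hj
        constructor
        · rintro ⟨-, h6, h7⟩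
          exact ⟨mem_univ _, h6, fun r hr => by rw [h5 r hr]; exact h7 r hr⟩
        · rintro ⟨-, h6, h7⟩
          exact ⟨mem_univ _, h6, fun r hr => by rw [← h5 r hr]; exact h7 r hr⟩
      have hN' : NiceC d mv (C c₀) (M c₀) (r c₀) (Fx c₀) x := NiceC_mono (hNi c₀)
        (Finset.single_le_sum (f := C) (fun _ _ => Nat.zero_le _) (mem_univ c₀))
        (Finset.single_le_sum (f := M) (fun _ _ => Nat.zero_le _) (mem_univ c₀))
      have hone := fun s => hCM c₀ ι N d mv A0 (Fx c₀) (ow c₀) x hx (hH c₀) hN' T hT0 hT1 hT2 s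
      have hge := avg_ge S' T hinv (fun s => if Module.finrank (F c₀)
          (KM N d mv (r c₀) A0 (Fx c₀) (ow c₀) x (ξ c₀) s) = τ c₀ then (1 : ℝ) else 0)
        (lawR (r c₀) (τ c₀) - δ) (fun s _ => by
          have := (abs_le.1 (hone s)).1
          linarith)
      have hle := avg_le S' T hinv (fun s => if Module.finrank (F c₀)
          (KM N d mv (r c₀) A0 (Fx c₀) (ow c₀) x (ξ c₀) s) = τ c₀ then (1 : ℝ) else 0)
        (lawR (r c₀) (τ c₀) + δ) (fun s _ => by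
          have := (abs_le.1 (hone s)).2
          linarith)
      have hcard : ∑ s ∈ S', (if Module.finrank (F c₀)
          (KM N d mv (r c₀) A0 (Fx c₀) (ow c₀) x (ξ c₀) s) = τ c₀ then (1 : ℝ) else 0) =
          (((univ : Finset (Bt N d)).filter (fun s => f (AA N d mv A0 s) ∧
            ∀ c ∈ insert c₀ R', Module.finrank (F c)
              (KM N d mv (r c) A0 (Fx c) (ow c) x (ξ c) s) = τ c)).card : ℝ) := by
        rw [← sum_filter, sum_const, nsmul_eq_mul, mul_one]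
        congr 2
        ext s
        rw [mem_filter, hS', mem_filter, mem_filter]
        simp only [mem_insert, forall_eq_or_imp]
        tauto
      rw [hcard] at hge hle
      have hS'0 : (S'.card : ℝ) ≤ S0.card := by
        have : S'.card ≤ S0.card := by
          refine card_le_card ?_
          rw [hS', hS0]
          intro s hs
          rw [mem_filter] at hs ⊢
          exact ⟨hs.1, hs.2.1⟩
        exact_mod_cast this
      rw [prod_insert hc₀, card_insert_of_notMem hc₀]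
      push_cast
      obtain ⟨ih1, ih2⟩ := abs_le.1 ih
      generalize hX : (((univ : Finset (Bt N d)).filter (fun s => f (AA N d mv A0 s) ∧
            ∀ c ∈ insert c₀ R', Module.finrank (F c)
              (KM N d mv (r c) A0 (Fx c) (ow c) x (ξ c) s) = τ c)).card : ℝ) = X at *
      generalize (∏ c ∈ R', lawR (r c) (τ c)) = P at *
      generalize lawR (r c₀) (τ c₀) = p at *
      have hS'n : (0 : ℝ) ≤ S'.card := Nat.cast_nonneg _
      have hS0n : (0 : ℝ) ≤ S0.card := Nat.cast_nonneg _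
      have hRn : (0 : ℝ) ≤ R'.card := Nat.cast_nonneg _
      generalize (S'.card : ℝ) = a at *
      generalize (S0.card : ℝ) = b at *
      generalize (R'.card : ℝ) = k at *
      have hkb : 0 ≤ k * δ * b := by positivity
      rw [abs_le]
      constructor
      · nlinarith [mul_le_mul_of_nonneg_left ih1 hp0, mul_le_mul_of_nonneg_left ih2 hp0,
          mul_le_mul_of_nonneg_left hS'0 hδ0.le, mul_le_mul_of_nonneg_right hp1 hkb]
      · nlinarith [mul_le_mul_of_nonneg_left ih1 hp0, mul_le_mul_of_nonneg_left ih2 hp0,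
          mul_le_mul_of_nonneg_left hS'0 hδ0.le, mul_le_mul_of_nonneg_right hp1 hkb]
  have h8 := key univ
  rw [card_univ] at h8
  have h9 : (Fintype.card κ : ℝ) * δ ≤ ε := by
    rw [hδ, ← mul_div_assoc, div_le_iff₀ (by positivity)]
    nlinarith
  have h10 : (Fintype.card κ : ℝ) * δ * (S0.card : ℝ) ≤ ε * (S0.card : ℝ) :=
    mul_le_mul_of_nonneg_right h9 (Nat.cast_nonneg _)
  have h11 := h8.trans h10
  rw [hS0] at h11
  simp only [mem_univ, true_imp_iff] at h11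
  exact h11

end Pool.Agent.Q150.GL
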