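import Pool.Agent.Q165.GL.Stm

/-!
# Project GL (helper165), job LOW: the lower bound
-/

set_option autoImplicit false

namespace Pool.Agent.Q150.GL.Low

open Finset Pool.Agent.Q165.GL

/-- the edges of the construction -/
def Ed (j t i i' : ℕ) : Prop := i < i' ∧ (i' - i ≤ j ∨ (i' - i = j + 1 ∧ i % (j + 1) < t))

/-- the graph of the construction -/
def Gr (n j t : ℕ) : SimpleGraph (Fin n) where
  Adj a b := Ed j t a b ∨ Ed j t b a
  symm := ⟨fun a b h => Or.symm h⟩
  loopless := ⟨fun a h => by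
    rcases h with h | h <;> exact lt_irrefl _ h.1⟩

/-- the points of the construction -/
noncomputable def Pt (n : ℕ) (i : Fin n) : ℝ × ℝ := ((i : ℕ), ((i : ℕ) : ℝ) ^ 2)

lemma genPos (n : ℕ) : GenPos (Pt n) := by
  constructor
  · intro i j h
    have h1 := congrArg Prod.fst h
    simp only [Pt] at h1
    exact Fin.ext (by exact_mod_cast h1)
  · intro i j k hij hik hjk h
    rw [collinear_iff_of_mem (p₀ := Pt n i) (by simp)] at h
    obtain ⟨v, hv⟩ := h
    obtain ⟨r, hr⟩ := hv (Pt n j) (by simp)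
    obtain ⟨s, hs⟩ := hv (Pt n k) (by simp)
    have e1 := congrArg Prod.fst hr
    have e2 := congrArg Prod.snd hr
    have e3 := congrArg Prod.fst hs
    have e4 := congrArg Prod.snd hs
    simp only [Pt, vadd_eq_add, Prod.fst_add, Prod.snd_add, Prod.smul_fst, Prod.smul_snd,
      smul_eq_mul] at e1 e2 e3 e4
    have d1 : ((i : ℕ) : ℝ) ≠ ((j : ℕ) : ℝ) := by
      intro h; exact hij (Fin.ext (by exact_mod_cast h))
    have d2 : ((i : ℕ) : ℝ) ≠ ((k : ℕ) : ℝ) := by
      intro h; exact hik (Fin.ext (by exact_mod_cast h))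
    have d3 : ((j : ℕ) : ℝ) ≠ ((k : ℕ) : ℝ) := by
      intro h; exact hjk (Fin.ext (by exact_mod_cast h))
    generalize ((i : ℕ) : ℝ) = x at *
    generalize ((j : ℕ) : ℝ) = y at *
    generalize ((k : ℕ) : ℝ) = z at *
    have h1 : (y - x) * (z - x) * (z - y) = 0 := by
      have h2 : (y - x) * (z ^ 2 - x ^ 2) - (y ^ 2 - x ^ 2) * (z - x) = 0 := by
        have a1 : y - x = r * v.1 := by linarith
        have a2 : y ^ 2 - x ^ 2 = r * v.2 := by linarith
        have a3 : z - x = s * v.1 := by linarith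
        have a4 : z ^ 2 - x ^ 2 = s * v.2 := by linarith
        rw [a2, a4, a1, a3]
        ring
      linear_combination h2
    rcases mul_eq_zero.1 h1 with h2 | h2
    · rcases mul_eq_zero.1 h2 with h3 | h3
      · exact d1 (by linarith)
      · exact d2 (by linarith)
    · exact d3 (by linarith)

open Classical in
/-- the ordered edges -/
noncomputable def Od (n j t : ℕ) : Finset (Fin n × Fin n) :=
  univ.filter fun q => Ed j t q.1 q.2

/-- few edges over one place -/
lemma over_one (n j t m : ℕ) (A : Finset (Fin n × Fin n))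
    (hA : ∀ q ∈ A, Ed j t q.1 q.2 ∧ (q.1 : ℕ) ≤ m ∧ m < q.2) : 2 * A.card ≤ j * (j + 1) + 2 * t := by
  classical
  have hsplit := Finset.card_filter_add_card_filter_not (s := A)
    (fun q : Fin n × Fin n => (q.2 : ℕ) - q.1 ≤ j)
  have h1 : (A.filter fun q => (q.2 : ℕ) - q.1 ≤ j).card ≤
      ((range (j + 1)).sigma fun l => range l).card := by
    refine Finset.card_le_card_of_injOn
      (fun q => (⟨(q.2 : ℕ) - q.1, m - q.1⟩ : Σ _ : ℕ, ℕ)) ?_ ?_
    · intro q hq
      rw [Finset.mem_coe, Finset.mem_filter] at hq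
      obtain ⟨h1, h2, h3⟩ := hA q hq.1
      have h4 := hq.2
      simp only [Finset.mem_coe, Finset.mem_sigma, Finset.mem_range]
      omega
    · intro q hq q' hq' h
      rw [Finset.mem_coe, Finset.mem_filter] at hq hq'
      obtain ⟨h1, h2, h3⟩ := hA q hq.1
      obtain ⟨h1', h2', h3'⟩ := hA q' hq'.1
      simp only [Sigma.mk.injEq, heq_eq_eq] at h
      have e1 := h.1
      have e2 := h.2
      refine Prod.ext (Fin.ext ?_) (Fin.ext ?_) <;> omega
  have h2 : (A.filter fun q => ¬ (q.2 : ℕ) - q.1 ≤ j).card ≤ (range t).card := by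
    refine Finset.card_le_card_of_injOn (fun q => (q.1 : ℕ) % (j + 1)) ?_ ?_
    · intro q hq
      rw [Finset.mem_coe, Finset.mem_filter] at hq
      obtain ⟨h1, h2, h3⟩ := hA q hq.1
      have h4 := hq.2
      rcases h1.2 with h5 | h5
      · exact absurd h5 h4
      · simp only [Finset.coe_range, Set.mem_Iio]
        exact h5.2
    · intro q hq q' hq' h
      rw [Finset.mem_coe, Finset.mem_filter] at hq hq'
      obtain ⟨h1, h2, h3⟩ := hA q hq.1
      obtain ⟨h1', h2', h3'⟩ := hA q' hq'.1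
      have h4 := hq.2
      have h4' := hq'.2
      have e1 : (q.2 : ℕ) - q.1 = j + 1 := by
        rcases h1.2 with h5 | h5
        · exact absurd h5 h4
        · exact h5.1
      have e2 : (q'.2 : ℕ) - q'.1 = j + 1 := by
        rcases h1'.2 with h5 | h5
        · exact absurd h5 h4'
        · exact h5.1
      have e3 : (q.1 : ℕ) % (j + 1) = (q'.1 : ℕ) % (j + 1) := h
      have e4 : (q.1 : ℕ) = q'.1 := by
        have l1 := h1.1
        have l2 := h1'.1
        rcases le_total (q.1 : ℕ) q'.1 with hle | hle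
        · have hm : (q.1 : ℕ) ≡ q'.1 [MOD (j + 1)] := e3
          have hd := (Nat.modEq_iff_dvd' hle).1 hm
          have hlt : (q'.1 : ℕ) - q.1 < j + 1 := by omega
          have := Nat.eq_zero_of_dvd_of_lt hd hlt
          omega
        · have hm : (q'.1 : ℕ) ≡ q.1 [MOD (j + 1)] := e3.symm
          have hd := (Nat.modEq_iff_dvd' hle).1 hm
          have hlt : (q.1 : ℕ) - q'.1 < j + 1 := by omega
          have := Nat.eq_zero_of_dvd_of_lt hd hlt
          omega
      have l1 := h1.1
      have l2 := h1'.1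
      refine Prod.ext (Fin.ext e4) (Fin.ext ?_)
      omega
  have h3 : ((range (j + 1)).sigma fun l => range l).card * 2 = (j + 1) * j := by
    rw [Finset.card_sigma]
    simp only [Finset.card_range]
    rw [Finset.sum_range_id_mul_two]
    rfl
  rw [Finset.card_range] at h2
  have h4 : (j + 1) * j = j * (j + 1) := mul_comm _ _
  omega

/-- few edges over one real number -/
lemma over_real (n j t : ℕ) (α : ℝ) (A : Finset (Fin n × Fin n))
    (hA : ∀ q ∈ A, Ed j t q.1 q.2 ∧ ((q.1 : ℕ) : ℝ) ≤ α ∧ α < ((q.2 : ℕ) : ℝ)) :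
    2 * A.card ≤ j * (j + 1) + 2 * t := by
  rcases lt_or_ge α 0 with h0 | h0
  · have : A = ∅ := by
      rw [Finset.eq_empty_iff_forall_notMem]
      intro q hq
      have h1 := (hA q hq).2.1
      have h2 : (0 : ℝ) ≤ ((q.1 : ℕ) : ℝ) := Nat.cast_nonneg _
      linarith
    rw [this]
    simp
  · refine over_one n j t ⌊α⌋₊ A fun q hq => ?_
    obtain ⟨h1, h2, h3⟩ := hA q hq
    exact ⟨h1, Nat.le_floor h2, (Nat.floor_lt h0).2 h3⟩

/-- zeros of a quadratic polynomial between the ends of an edge -/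
lemma quad_zeros {a b d : ℝ} (hb : b ≠ 0) :
    ∃ α β : ℝ, ∀ x y : ℝ, x < y →
      (∃ s : ℝ, 0 < s ∧ s < 1 ∧
        (1 - s) * (a * x + b * x ^ 2 - d) + s * (a * y + b * y ^ 2 - d) = 0) →
      (x ≤ α ∧ α < y) ∨ (x ≤ β ∧ β < y) := by
  rcases lt_or_ge (a ^ 2 + 4 * b * d) 0 with hneg | hnn
  · refine ⟨0, 0, ?_⟩
    rintro x y hxy ⟨s, hs0, hs1, hs⟩
    exfalso
    have key : ∀ z : ℝ, 0 < b * (a * z + b * z ^ 2 - d) := by
      intro z
      have h1 : 4 * (b * (a * z + b * z ^ 2 - d)) = (2 * b * z + a) ^ 2 - (a ^ 2 + 4 * b * d) := by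
        ring
      have h2 : 0 ≤ (2 * b * z + a) ^ 2 := sq_nonneg _
      linarith
    have h1 := key x
    have h2 := key y
    have h3 : (1 - s) * (b * (a * x + b * x ^ 2 - d)) + s * (b * (a * y + b * y ^ 2 - d)) = 0 := by
      linear_combination b * hs
    have h4 : 0 < (1 - s) * (b * (a * x + b * x ^ 2 - d)) := mul_pos (by linarith) h1
    have h5 : 0 < s * (b * (a * y + b * y ^ 2 - d)) := mul_pos hs0 h2
    linarith
  · -- roots
    obtain ⟨w, hw0, hw⟩ : ∃ w : ℝ, 0 ≤ w ∧ w ^ 2 = (a ^ 2 + 4 * b * d) / (4 * b ^ 2) := by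
      refine ⟨√((a ^ 2 + 4 * b * d) / (4 * b ^ 2)), Real.sqrt_nonneg _, Real.sq_sqrt ?_⟩
      positivity
    obtain ⟨c, hc⟩ : ∃ c : ℝ, c = -a / (2 * b) := ⟨_, rfl⟩
    have hfac : ∀ z : ℝ, a * z + b * z ^ 2 - d = b * ((z - (c - w)) * (z - (c + w))) := by
      intro z
      have h1 : (z - (c - w)) * (z - (c + w)) = (z - c) ^ 2 - w ^ 2 := by ring
      rw [h1, hw, hc]
      field_simp
      ring
    refine ⟨c - w, c + w, ?_⟩
    rintro x y hxy ⟨s, hs0, hs1, hs⟩
    rw [hfac x, hfac y] at hs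
    have h3 : (1 - s) * ((x - (c - w)) * (x - (c + w))) +
        s * ((y - (c - w)) * (y - (c + w))) = 0 := by
      apply mul_left_cancel₀ hb
      linear_combination hs
    by_contra hcon
    push Not at hcon
    obtain ⟨h1, h2⟩ := hcon
    -- both x and y are on the same side of each zero
    rcases le_or_gt x (c - w) with hx | hx
    · have hy := h1 hx
      -- y ≤ c - w
      have e1 : 0 < (x - (c - w)) * (x - (c + w)) := by
        apply mul_pos_of_neg_of_neg <;> linarith
      have e2 : 0 ≤ (y - (c - w)) * (y - (c + w)) := by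
        apply mul_nonneg_of_nonpos_of_nonpos <;> linarith
      have e3 : 0 < (1 - s) * ((x - (c - w)) * (x - (c + w))) := mul_pos (by linarith) e1
      have e4 : 0 ≤ s * ((y - (c - w)) * (y - (c + w))) := mul_nonneg hs0.le e2
      linarith
    · rcases le_or_gt x (c + w) with hx2 | hx2
      · have hy := h2 hx2
        have e1 : (x - (c - w)) * (x - (c + w)) < 0 := by
          apply mul_neg_of_pos_of_neg <;> linarith
        have e2 : (y - (c - w)) * (y - (c + w)) ≤ 0 := by
          apply mul_nonpos_of_nonneg_of_nonpos <;> linarith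
        have e3 : (1 - s) * ((x - (c - w)) * (x - (c + w))) < 0 :=
          mul_neg_of_pos_of_neg (by linarith) e1
        have e4 : s * ((y - (c - w)) * (y - (c + w))) ≤ 0 :=
          mul_nonpos_of_nonneg_of_nonpos hs0.le e2
        linarith
      · have e1 : 0 < (x - (c - w)) * (x - (c + w)) := by
          apply mul_pos <;> linarith
        have e2 : 0 < (y - (c - w)) * (y - (c + w)) := by
          apply mul_pos <;> linarith
        have e3 : 0 < (1 - s) * ((x - (c - w)) * (x - (c + w))) := mul_pos (by linarith) e1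
        have e4 : 0 < s * ((y - (c - w)) * (y - (c + w))) := mul_pos hs0 e2
        linarith

lemma zeros_all {a b d : ℝ} (hab : a ≠ 0 ∨ b ≠ 0) :
    ∃ α β : ℝ, ∀ x y : ℝ, x < y →
      (∃ s : ℝ, 0 < s ∧ s < 1 ∧
        (1 - s) * (a * x + b * x ^ 2 - d) + s * (a * y + b * y ^ 2 - d) = 0) →
      (x ≤ α ∧ α < y) ∨ (x ≤ β ∧ β < y) := by
  by_cases hb : b = 0
  · have ha : a ≠ 0 := by
      rcases hab with h | h
      · exact h
      · exact absurd hb h
    refine ⟨d / a, d / a, ?_⟩
    rintro x y hxy ⟨s, hs0, hs1, hs⟩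
    left
    rw [hb] at hs
    have h1 : d / a = (1 - s) * x + s * y := by
      field_simp
      linear_combination -hs
    rw [h1]
    constructor
    · nlinarith
    · nlinarith
  · exact quad_zeros hb

/-- no line meets many edges -/
lemma met_le (n j t : ℕ) (a b d : ℝ) (hab : a ≠ 0 ∨ b ≠ 0) :
    met (Pt n) (Gr n j t) (lineOf a b d) ≤ j * (j + 1) + 2 * t := by
  classical
  obtain ⟨α, β, hαβ⟩ := zeros_all (d := d) hab
  obtain ⟨A1, hA1⟩ : ∃ A1, A1 = (Od n j t).filter
    (fun q => ((q.1 : ℕ) : ℝ) ≤ α ∧ α < ((q.2 : ℕ) : ℝ)) := ⟨_, rfl⟩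
  obtain ⟨A2, hA2⟩ : ∃ A2, A2 = (Od n j t).filter
    (fun q => ((q.1 : ℕ) : ℝ) ≤ β ∧ β < ((q.2 : ℕ) : ℝ)) := ⟨_, rfl⟩
  have h1 : 2 * A1.card ≤ j * (j + 1) + 2 * t := by
    refine over_real n j t α A1 fun q hq => ?_
    rw [hA1, Finset.mem_filter, Od, Finset.mem_filter] at hq
    exact ⟨hq.1.2, hq.2⟩
  have h2 : 2 * A2.card ≤ j * (j + 1) + 2 * t := by
    refine over_real n j t β A2 fun q hq => ?_
    rw [hA2, Finset.mem_filter, Od, Finset.mem_filter] at hq
    exact ⟨hq.1.2, hq.2⟩
  have key : ∀ i i' : Fin n, Ed j t i i' →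
      (openSegment ℝ (Pt n i) (Pt n i') ∩ lineOf a b d).Nonempty →
      s(i, i') ∈ (A1 ∪ A2).image (fun q => s(q.1, q.2)) := by
    intro i i' hE hne
    obtain ⟨z, hz1, hz2⟩ := hne
    obtain ⟨u, v, hu, hv, huv, rfl⟩ := hz1
    have h3 : a * (u * (i : ℕ) + v * (i' : ℕ)) +
        b * (u * ((i : ℕ) : ℝ) ^ 2 + v * ((i' : ℕ) : ℝ) ^ 2) = d := by
      have := hz2
      simp only [lineOf, Pt, Set.mem_ofPred_eq, Prod.fst_add, Prod.snd_add, Prod.smul_fst,
        Prod.smul_snd, smul_eq_mul] at this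
      exact this
    have hlt : ((i : ℕ) : ℝ) < ((i' : ℕ) : ℝ) := by exact_mod_cast hE.1
    have h4 := hαβ _ _ hlt ⟨v, hv, by linarith, by
      have hu' : u = 1 - v := by linarith
      rw [← hu']
      have hd : d = (u + v) * d := by rw [huv, one_mul]
      linear_combination h3 + hd⟩
    have hO : (i, i') ∈ Od n j t := by
      rw [Od, Finset.mem_filter]
      exact ⟨Finset.mem_univ _, hE⟩
    refine Finset.mem_image.2 ⟨(i, i'), ?_, rfl⟩
    rw [Finset.mem_union, hA1, hA2, Finset.mem_filter, Finset.mem_filter]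
    rcases h4 with h5 | h5
    · exact Or.inl ⟨hO, h5⟩
    · exact Or.inr ⟨hO, h5⟩
  have hsub : {e : Sym2 (Fin n) | e ∈ (Gr n j t).edgeSet ∧
      ∃ i j' : Fin n, e = s(i, j') ∧
        (openSegment ℝ (Pt n i) (Pt n j') ∩ lineOf a b d).Nonempty} ⊆
      (((A1 ∪ A2).image (fun q => s(q.1, q.2)) : Finset (Sym2 (Fin n))) : Set (Sym2 (Fin n))) := by
    rintro e ⟨he, i, i', rfl, hne⟩
    rw [SimpleGraph.mem_edgeSet] at he
    rcases he with h | h
    · exact key i i' h hne
    · rw [Sym2.eq_swap]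
      rw [openSegment_symm] at hne
      exact key i' i h hne
  unfold met
  refine (Set.ncard_le_ncard hsub (Finset.finite_toSet _)).trans ?_
  rw [Set.ncard_coe_finset]
  refine Finset.card_image_le.trans ((Finset.card_union_le _ _).trans ?_)
  omega

/-- residues -/
lemma res_count (j t : ℕ) (ht : t ≤ j + 1) (m : ℕ) :
    t * m ≤ (j + 1) * ∑ i ∈ range m, (if i % (j + 1) < t then 1 else 0) := by
  induction m using Nat.strong_induction_on with
  | _ m ih =>
    rcases Nat.lt_or_ge m (j + 1) with hm | hm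
    · have h1 : ∑ i ∈ range m, (if i % (j + 1) < t then 1 else 0) = min m t := by
        have h2 : ∑ i ∈ range m, (if i % (j + 1) < t then 1 else 0) =
            ∑ i ∈ range m, (if i < t then 1 else 0) := by
          refine Finset.sum_congr rfl fun i hi => ?_
          rw [Finset.mem_range] at hi
          rw [Nat.mod_eq_of_lt (by omega)]
        rw [h2, ← Finset.card_filter]
        have h3 : (range m).filter (fun i => i < t) = range (min m t) := by
          ext i
          simp only [Finset.mem_filter, Finset.mem_range]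
          omega
        rw [h3, Finset.card_range]
      rw [h1]
      rcases le_total m t with h2 | h2
      · rw [min_eq_left h2]
        exact Nat.mul_le_mul_right m ht
      · rw [min_eq_right h2, mul_comm]
        exact Nat.mul_le_mul_right t hm.le
    · obtain ⟨m', rfl⟩ := Nat.exists_eq_add_of_le hm
      rw [Finset.sum_range_add]
      have h1 : ∑ i ∈ range (j + 1), (if i % (j + 1) < t then 1 else 0) = t := by
        have h2 : ∑ i ∈ range (j + 1), (if i % (j + 1) < t then 1 else 0) =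
            ∑ i ∈ range (j + 1), (if i < t then 1 else 0) := by
          refine Finset.sum_congr rfl fun i hi => ?_
          rw [Finset.mem_range] at hi
          rw [Nat.mod_eq_of_lt hi]
        rw [h2, ← Finset.card_filter]
        have h3 : (range (j + 1)).filter (fun i => i < t) = range t := by
          ext i
          simp only [Finset.mem_filter, Finset.mem_range]
          omega
        rw [h3, Finset.card_range]
      have h2 : ∑ i ∈ range m', (if (j + 1 + i) % (j + 1) < t then 1 else 0) =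
          ∑ i ∈ range m', (if i % (j + 1) < t then 1 else 0) := by
        refine Finset.sum_congr rfl fun i _ => ?_
        rw [Nat.add_mod_left]
      rw [h1, h2]
      have h3 := ih m' (by omega)
      calc t * (j + 1 + m') = (j + 1) * t + t * m' := by ring
        _ ≤ (j + 1) * t + (j + 1) * ∑ i ∈ range m', (if i % (j + 1) < t then 1 else 0) := by omega
        _ = _ := by ring

/-- many edges -/
lemma edges_ge (n j t : ℕ) (hn : j + 1 ≤ n) :
    ∑ i ∈ range (n - (j + 1)), (j + (if i % (j + 1) < t then 1 else 0)) ≤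
      (Gr n j t).edgeSet.ncard := by
  classical
  obtain ⟨m, hm⟩ : ∃ m, m = n - (j + 1) := ⟨_, rfl⟩
  obtain ⟨S, hS⟩ : ∃ S : Finset (Σ _ : ℕ, ℕ), S = (range m).sigma
    (fun i => range (j + (if i % (j + 1) < t then 1 else 0))) := ⟨_, rfl⟩
  have h1 : S.card = ∑ i ∈ range m, (j + (if i % (j + 1) < t then 1 else 0)) := by
    rw [hS, Finset.card_sigma]
    simp only [Finset.card_range]
  have h2 : S.card ≤ (Od n j t).card := by
    refine Finset.card_le_card_of_surjOn
      (fun q : Fin n × Fin n => (⟨(q.1 : ℕ), (q.2 : ℕ) - q.1 - 1⟩ : Σ _ : ℕ, ℕ)) ?_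
    rintro ⟨i, k⟩ hq
    rw [Finset.mem_coe, hS, Finset.mem_sigma, Finset.mem_range, Finset.mem_range] at hq
    obtain ⟨hi, hk⟩ := hq
    simp only at hi hk
    have hk1 : k < j + 1 := by
      split_ifs at hk <;> omega
    refine ⟨(⟨i, by omega⟩, ⟨i + k + 1, by omega⟩), ?_, ?_⟩
    · rw [Finset.mem_coe, Od, Finset.mem_filter]
      refine ⟨Finset.mem_univ _, ?_, ?_⟩
      · show i < i + k + 1
        omega
      · show i + k + 1 - i ≤ j ∨ (i + k + 1 - i = j + 1 ∧ i % (j + 1) < t)
        by_cases h : i % (j + 1) < t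
        · by_cases h' : k < j
          · left; omega
          · right; exact ⟨by omega, h⟩
        · rw [if_neg h] at hk
          left; omega
    · show (⟨i, i + k + 1 - i - 1⟩ : Σ _ : ℕ, ℕ) = ⟨i, k⟩
      congr 1
      omega
  have h3 : (Od n j t).card ≤ (Gr n j t).edgeSet.ncard := by
    have h4 : Set.InjOn (fun q : Fin n × Fin n => s(q.1, q.2)) (Od n j t : Set (Fin n × Fin n)) := by
      intro q hq q' hq' h
      rw [Finset.mem_coe, Od, Finset.mem_filter] at hq hq'
      have e1 := hq.2.1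
      have e2 := hq'.2.1
      have h5 : s(q.1, q.2) = s(q'.1, q'.2) := h
      rw [Sym2.eq_iff] at h5
      rcases h5 with h5 | h5
      · exact Prod.ext h5.1 h5.2
      · rw [h5.1, h5.2] at e1
        omega
    rw [← Set.ncard_coe_finset, ← h4.ncard_image]
    refine Set.ncard_le_ncard ?_ (Set.toFinite _)
    rintro e ⟨q, hq, rfl⟩
    rw [Finset.mem_coe, Od, Finset.mem_filter] at hq
    rw [SimpleGraph.mem_edgeSet]
    exact Or.inl hq.2
  rw [← hm, ← h1]
  exact h2.trans h3

end Pool.Agent.Q150.GL.Low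

namespace Pool.Agent.Q150.GL

open Finset Pool.Agent.Q165.GL Low

/-- JOB LOW -/
theorem low : S_LOW := by
  intro n j t ht
  refine ⟨Pt n, Gr n j t, genPos n, fun a b d hab => met_le n j t a b d hab, ?_⟩
  have hj : (0 : ℝ) < (j : ℝ) + 1 := by positivity
  have htr : (t : ℝ) ≤ (j : ℝ) + 1 := by exact_mod_cast ht
  rcases Nat.lt_or_ge n (j + 1) with hn | hn
  · have hnr : (n : ℝ) ≤ (j : ℝ) + 1 := by exact_mod_cast hn.le
    have h1 : ((j : ℝ) + t / (j + 1)) * n ≤ ((j : ℝ) + t / (j + 1)) * (j + 1) :=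
      mul_le_mul_of_nonneg_left hnr (by positivity)
    have h2 : ((j : ℝ) + t / (j + 1)) * (j + 1) = j * (j + 1) + t := by
      field_simp
    have h3 : (0 : ℝ) ≤ ((Gr n j t).edgeSet.ncard : ℝ) := Nat.cast_nonneg _
    have h4 : (0 : ℝ) ≤ t := Nat.cast_nonneg _
    linarith
  · have h1 := edges_ge n j t hn
    have h2 := res_count j t ht (n - (j + 1))
    rw [Finset.sum_add_distrib, Finset.sum_const, Finset.card_range, smul_eq_mul] at h1
    obtain ⟨m, hm⟩ := Nat.exists_eq_add_of_le hn
    have hm' : n - (j + 1) = m := by omega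
    rw [hm'] at h1 h2
    obtain ⟨c, hc⟩ : ∃ c, c = ∑ i ∈ range m, (if i % (j + 1) < t then 1 else 0) := ⟨_, rfl⟩
    rw [← hc] at h1 h2
    have h1r : (m : ℝ) * j + c ≤ ((Gr n j t).edgeSet.ncard : ℝ) := by exact_mod_cast h1
    have h2r : (t : ℝ) * m ≤ ((j : ℝ) + 1) * c := by exact_mod_cast h2
    have h3 : (t : ℝ) / (j + 1) * m ≤ c := by
      rw [div_mul_eq_mul_div, div_le_iff₀ hj]
      linarith
    have h4 : (n : ℝ) = j + 1 + m := by
      rw [hm]; push_cast; ring
    have h5 : ((j : ℝ) + t / (j + 1)) * n = j * (j + 1) + t + (m * j + t / (j + 1) * m) := by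
      rw [h4]
      field_simp
    have h6 : (0 : ℝ) ≤ t := Nat.cast_nonneg _
    rw [h5]
    linarith

end Pool.Agent.Q150.GL
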