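import Pool.Agent.Q64.GL.Stm

/-!
# The uncentered maximal theorem for locally finite measures on the line (project GL, lemma MAX)
-/

set_option autoImplicit false

open MeasureTheory Set Filter Topology
open scoped ENNReal NNReal Real

namespace Pool.Agent.Q150.GL

open Pool.Agent.Q64.GL

theorem select (S : Finset (ℝ × ℝ)) : ∃ T ⊆ S,
    (∀ x, (∃ q ∈ S, x ∈ Ioo (q.1 - q.2) (q.1 + q.2)) →
      ∃ q ∈ T, x ∈ Ioo (q.1 - q.2) (q.1 + q.2)) ∧
    ∀ x, ∃ A : Finset (ℝ × ℝ), A.card ≤ 2 ∧
      ∀ q ∈ T, x ∈ Ioo (q.1 - q.2) (q.1 + q.2) → q ∈ A := by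
  classical
  induction' h : S.card using Nat.strong_induction_on with n ih generalizing S
  by_cases hx : ∀ x, (S.filter (fun q => x ∈ Ioo (q.1 - q.2) (q.1 + q.2))).card ≤ 2
  · refine ⟨S, subset_rfl, fun x h => h, fun x => ⟨_, hx x, fun q hq hxq => ?_⟩⟩
    exact Finset.mem_filter.mpr ⟨hq, hxq⟩
  · push Not at hx
    obtain ⟨x, hx⟩ := hx
    set F := S.filter (fun q => x ∈ Ioo (q.1 - q.2) (q.1 + q.2)) with hF
    have hne : F.Nonempty := Finset.card_pos.mp (by omega)
    obtain ⟨a, haF, ha⟩ := Finset.exists_min_image F (fun q => q.1 - q.2) hne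
    obtain ⟨b, hbF, hb⟩ := Finset.exists_max_image F (fun q => q.1 + q.2) hne
    have hc : ∃ c ∈ F, c ≠ a ∧ c ≠ b := by
      by_contra hcon
      push Not at hcon
      have h1 : F ⊆ {a, b} := by
        intro c hc
        rw [Finset.mem_insert, Finset.mem_singleton]
        by_cases hca : c = a
        · exact Or.inl hca
        · exact Or.inr (hcon c hc hca)
      have h2 := Finset.card_le_card h1
      have h3 := Finset.card_le_two (a := a) (b := b)
      omega
    obtain ⟨c, hcF, hca, hcb⟩ := hc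
    rw [hF, Finset.mem_filter] at haF hbF
    have hcF' := hcF
    rw [hF, Finset.mem_filter] at hcF'
    obtain ⟨T, hT, hcov, hcard⟩ := ih (S.erase c).card
      (by rw [← h]; exact Finset.card_erase_lt_of_mem hcF'.1) (S.erase c) rfl
    refine ⟨T, hT.trans (Finset.erase_subset _ _), ?_, hcard⟩
    intro y hy
    apply hcov
    obtain ⟨q, hq, hyq⟩ := hy
    by_cases hqc : q = c
    · subst hqc
      rcases lt_or_ge y x with hlt | hge
      · refine ⟨a, Finset.mem_erase.mpr ⟨fun h => hca h.symm, haF.1⟩, ?_, ?_⟩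
        · exact lt_of_le_of_lt (ha q hcF) hyq.1
        · exact lt_trans hlt haF.2.2
      · refine ⟨b, Finset.mem_erase.mpr ⟨fun h => hcb h.symm, hbF.1⟩, ?_, ?_⟩
        · exact lt_of_lt_of_le hbF.2.1 hge
        · exact lt_of_lt_of_le hyq.2 (hb q hcF)
    · exact ⟨q, Finset.mem_erase.mpr ⟨hqc, hq⟩, hyq⟩

/-- The averages. -/
theorem lt_MF_iff (μ : Measure ℝ) (g : ℝ → ℝ≥0∞) (x : ℝ) (t : ℝ≥0∞) :
    t < MF μ g x ↔ ∃ z y : ℝ, 0 < y ∧ x ∈ Ioo (z - y) (z + y) ∧
      t < (∫⁻ s in Ioo (z - y) (z + y), g s ∂μ) / μ (Ioo (z - y) (z + y)) := by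
  unfold MF
  simp only [lt_iSup_iff, exists_prop]

theorem isOpen_MF (μ : Measure ℝ) (g : ℝ → ℝ≥0∞) (t : ℝ≥0∞) : IsOpen {x | t < MF μ g x} := by
  rw [isOpen_iff_mem_nhds]
  intro x hx
  rw [mem_ofPred_eq, lt_MF_iff] at hx
  obtain ⟨z, y, hy, hxz, ht⟩ := hx
  filter_upwards [isOpen_Ioo.mem_nhds hxz] with w hw
  rw [lt_MF_iff]
  exact ⟨z, y, hy, hw, ht⟩

theorem measurable_MF (μ : Measure ℝ) (g : ℝ → ℝ≥0∞) : Measurable (MF μ g) :=
  measurable_of_Ioi fun t => (isOpen_MF μ g t).measurableSet

theorem weak (μ : Measure ℝ) (hμ : ∀ z y : ℝ, μ (Ioo (z - y) (z + y)) ≠ ∞) (g : ℝ → ℝ≥0∞)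
    (hg : Measurable g) (t : ℝ≥0∞) :
    t * μ {x | t < MF μ g x} ≤ 2 * ∫⁻ x, g x ∂μ := by
  classical
  have : IsLocallyFiniteMeasure μ := ⟨fun x => ⟨Ioo (x - 1) (x + 1),
    Ioo_mem_nhds (by linarith) (by linarith), (hμ x 1).lt_top⟩⟩
  rw [(isOpen_MF μ g t).measure_eq_iSup_isCompact]
  simp only [ENNReal.mul_iSup]
  refine iSup_le fun K => iSup_le fun hKE => iSup_le fun hK => ?_
  obtain ⟨b', hb', hfin, hcov⟩ := hK.elim_finite_subcover_image
    (b := {q : ℝ × ℝ | t < (∫⁻ s in Ioo (q.1 - q.2) (q.1 + q.2), g s ∂μ) /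
      μ (Ioo (q.1 - q.2) (q.1 + q.2))}) (c := fun q => Ioo (q.1 - q.2) (q.1 + q.2))
    (fun q _ => isOpen_Ioo) (by
      intro x hx
      obtain ⟨z, y, hy, hxz, ht⟩ := (lt_MF_iff μ g x t).mp (hKE hx)
      exact mem_biUnion (x := (z, y)) ht hxz)
  obtain ⟨T, hTS, hT, hcard⟩ := select hfin.toFinset
  have h1 : K ⊆ ⋃ q ∈ T, Ioo (q.1 - q.2) (q.1 + q.2) := by
    intro x hx
    obtain ⟨q, hq, hxq⟩ := mem_iUnion₂.mp (hcov hx)
    obtain ⟨q', hq', hxq'⟩ := hT x ⟨q, hfin.mem_toFinset.mpr hq, hxq⟩
    exact mem_biUnion hq' hxq'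
  calc t * μ K ≤ t * ∑ q ∈ T, μ (Ioo (q.1 - q.2) (q.1 + q.2)) := by
        gcongr
        exact (measure_mono h1).trans (measure_biUnion_finset_le _ _)
    _ = ∑ q ∈ T, t * μ (Ioo (q.1 - q.2) (q.1 + q.2)) := Finset.mul_sum _ _ _
    _ ≤ ∑ q ∈ T, ∫⁻ s in Ioo (q.1 - q.2) (q.1 + q.2), g s ∂μ := by
        refine Finset.sum_le_sum fun q hq => ?_
        have h2 := hb' (hfin.mem_toFinset.mp (hTS hq))
        exact ENNReal.mul_le_of_le_div (le_of_lt h2)
    _ = ∑ q ∈ T, ∫⁻ s, (Ioo (q.1 - q.2) (q.1 + q.2)).indicator g s ∂μ := by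
        refine Finset.sum_congr rfl fun q _ => ?_
        rw [lintegral_indicator measurableSet_Ioo]
    _ = ∫⁻ s, ∑ q ∈ T, (Ioo (q.1 - q.2) (q.1 + q.2)).indicator g s ∂μ := by
        rw [lintegral_finsetSum]
        exact fun q _ => hg.indicator measurableSet_Ioo
    _ ≤ ∫⁻ s, 2 * g s ∂μ := by
        refine lintegral_mono fun s => ?_
        obtain ⟨A, hA, hAT⟩ := hcard s
        calc ∑ q ∈ T, (Ioo (q.1 - q.2) (q.1 + q.2)).indicator g s
            ≤ ∑ q ∈ A, g s := by
              rw [← Finset.sum_filter_add_sum_filter_not T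
                (fun q => s ∈ Ioo (q.1 - q.2) (q.1 + q.2))]
              have h3 : ∑ q ∈ T.filter (fun q => ¬ s ∈ Ioo (q.1 - q.2) (q.1 + q.2)),
                  (Ioo (q.1 - q.2) (q.1 + q.2)).indicator g s = 0 := by
                refine Finset.sum_eq_zero fun q hq => ?_
                rw [Finset.mem_filter] at hq
                exact indicator_of_notMem hq.2 _
              rw [h3, add_zero]
              calc ∑ q ∈ T.filter (fun q => s ∈ Ioo (q.1 - q.2) (q.1 + q.2)),
                  (Ioo (q.1 - q.2) (q.1 + q.2)).indicator g s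
                  ≤ ∑ q ∈ T.filter (fun q => s ∈ Ioo (q.1 - q.2) (q.1 + q.2)), g s :=
                    Finset.sum_le_sum fun q _ => indicator_le_self _ _ _
                _ ≤ ∑ q ∈ A, g s := by
                    refine Finset.sum_le_sum_of_subset fun q hq => ?_
                    rw [Finset.mem_filter] at hq
                    exact hAT q hq.1 hq.2
          _ = (A.card : ℝ≥0∞) * g s := by rw [Finset.sum_const, nsmul_eq_mul]
          _ ≤ 2 * g s := by
              gcongr
              exact_mod_cast hA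
    _ = 2 * ∫⁻ x, g x ∂μ := lintegral_const_mul _ hg

theorem weak2 (μ : Measure ℝ) (hμ : ∀ z y : ℝ, μ (Ioo (z - y) (z + y)) ≠ ∞) (g : ℝ → ℝ≥0∞)
    (hg : Measurable g) (t : ℝ) (ht : 0 < t) :
    ENNReal.ofReal t * μ {x | ENNReal.ofReal t < MF μ g x} ≤
      4 * ∫⁻ x, {x | ENNReal.ofReal (t / 2) < g x}.indicator g x ∂μ := by
  set E : Set ℝ := {x | ENNReal.ofReal (t / 2) < g x} with hE
  have hEm : MeasurableSet E := measurableSet_lt measurable_const hg
  have h1 : {x | ENNReal.ofReal t < MF μ g x} ⊆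
      {x | ENNReal.ofReal (t / 2) < MF μ (E.indicator g) x} := by
    intro x hx
    rw [mem_ofPred_eq, lt_MF_iff] at hx ⊢
    obtain ⟨z, y, hy, hxz, hlt⟩ := hx
    refine ⟨z, y, hy, hxz, ?_⟩
    set I := Ioo (z - y) (z + y) with hI
    have h2 : ∫⁻ s in I, g s ∂μ ≤ ∫⁻ s in I, E.indicator g s ∂μ + ENNReal.ofReal (t / 2) * μ I := by
      rw [← setLIntegral_const, ← lintegral_add_right _ measurable_const]
      refine lintegral_mono fun s => ?_
      by_cases hs : s ∈ E
      · rw [indicator_of_mem hs]; exact le_self_add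
      · rw [indicator_of_notMem hs, zero_add]
        exact not_lt.mp hs
    have h3 : (∫⁻ s in I, g s ∂μ) / μ I ≤
        (∫⁻ s in I, E.indicator g s ∂μ) / μ I + ENNReal.ofReal (t / 2) := by
      refine (ENNReal.div_le_div_right h2 _).trans ?_
      rw [ENNReal.add_div]
      gcongr
      exact ENNReal.div_le_of_le_mul le_rfl
    have h4 : ENNReal.ofReal t = ENNReal.ofReal (t / 2) + ENNReal.ofReal (t / 2) := by
      rw [← ENNReal.ofReal_add (by positivity) (by positivity)]
      congr 1; ring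
    have h5 := lt_of_lt_of_le hlt h3
    rw [h4] at h5
    exact lt_of_add_lt_add_right h5
  have h2 := weak μ hμ (E.indicator g) (hg.indicator hEm) (ENNReal.ofReal (t / 2))
  have h4 : ENNReal.ofReal t = 2 * ENNReal.ofReal (t / 2) := by
    rw [show (2 : ℝ≥0∞) = ENNReal.ofReal 2 by norm_num, ← ENNReal.ofReal_mul (by norm_num)]
    congr 1; ring
  calc ENNReal.ofReal t * μ {x | ENNReal.ofReal t < MF μ g x}
      ≤ ENNReal.ofReal t * μ {x | ENNReal.ofReal (t / 2) < MF μ (E.indicator g) x} :=
        mul_le_mul_right (measure_mono h1) _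
    _ = 2 * ENNReal.ofReal (t / 2) * μ {x | ENNReal.ofReal (t / 2) < MF μ (E.indicator g) x} := by
        rw [h4]
    _ = 2 * (ENNReal.ofReal (t / 2) * μ {x | ENNReal.ofReal (t / 2) < MF μ (E.indicator g) x}) := by
        rw [mul_assoc]
    _ ≤ 2 * (2 * ∫⁻ x, E.indicator g x ∂μ) := by gcongr
    _ = 4 * ∫⁻ x, E.indicator g x ∂μ := by rw [← mul_assoc]; norm_num

/-- `∫_{0<t<b} t^(s) dt` for `s > -1`. -/
theorem lint_pow (s b : ℝ) (hs : -1 < s) (hb : 0 ≤ b) :
    ∫⁻ t in Ioo 0 b, ENNReal.ofReal (t ^ s) = ENNReal.ofReal (b ^ (s + 1) / (s + 1)) := by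
  rw [← ofReal_integral_eq_lintegral_ofReal]
  · congr 1
    rw [← integral_Ioc_eq_integral_Ioo, ← intervalIntegral.integral_of_le hb,
      integral_rpow (Or.inl hs), Real.zero_rpow (by linarith), sub_zero]
  · have h1 : IntegrableOn (fun t : ℝ => t ^ s) (Ioc 0 b) volume := by
      rw [← intervalIntegrable_iff_integrableOn_Ioc_of_le hb]
      exact intervalIntegral.intervalIntegrable_rpow' hs
    exact h1.mono_set Ioo_subset_Ioc_self
  · filter_upwards [self_mem_ae_restrict measurableSet_Ioo] with t ht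
    exact Real.rpow_nonneg ht.1.le _

theorem pow_le_layer (r : ℝ) (hr : 0 < r) (a : ℝ≥0∞) :
    a ^ r ≤ ∫⁻ t in Ioi (0 : ℝ), {t : ℝ | ENNReal.ofReal t < a}.indicator
      (fun t => ENNReal.ofReal (r * t ^ (r - 1))) t := by
  have key : ∀ b : ℝ, 0 ≤ b → ENNReal.ofReal b ≤ a → ENNReal.ofReal b ^ r ≤
      ∫⁻ t in Ioi (0 : ℝ), {t : ℝ | ENNReal.ofReal t < a}.indicator
      (fun t => ENNReal.ofReal (r * t ^ (r - 1))) t := by
    intro b hb hba
    calc ENNReal.ofReal b ^ r = ENNReal.ofReal (b ^ r) := ENNReal.ofReal_rpow_of_nonneg hb hr.le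
      _ = ENNReal.ofReal r * ENNReal.ofReal (b ^ (r - 1 + 1) / (r - 1 + 1)) := by
          rw [← ENNReal.ofReal_mul hr.le]
          congr 1
          rw [sub_add_cancel]
          field_simp
      _ = ENNReal.ofReal r * ∫⁻ t in Ioo 0 b, ENNReal.ofReal (t ^ (r - 1)) := by
          rw [lint_pow (r - 1) b (by linarith) hb]
      _ = ∫⁻ t in Ioo 0 b, ENNReal.ofReal r * ENNReal.ofReal (t ^ (r - 1)) := by
          rw [lintegral_const_mul']
          exact ENNReal.ofReal_ne_top
      _ ≤ ∫⁻ t in Ioo 0 b, {t : ℝ | ENNReal.ofReal t < a}.indicator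
          (fun t => ENNReal.ofReal (r * t ^ (r - 1))) t := by
          refine setLIntegral_mono' measurableSet_Ioo fun t ht => ?_
          rw [indicator_of_mem]
          · rw [ENNReal.ofReal_mul hr.le]
          · exact lt_of_lt_of_le ((ENNReal.ofReal_lt_ofReal_iff (ht.1.trans ht.2)).mpr ht.2) hba
      _ ≤ _ := lintegral_mono_set fun t ht => ht.1
  rcases eq_or_ne a ∞ with ha | ha
  · subst ha
    rw [ENNReal.top_rpow_of_pos hr]
    refine top_le_iff.mpr (ENNReal.eq_top_of_forall_nnreal_le fun N => ?_)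
    have h1 := key ((N : ℝ) ^ r⁻¹) (Real.rpow_nonneg N.coe_nonneg _) le_top
    rw [ENNReal.ofReal_rpow_of_nonneg (Real.rpow_nonneg N.coe_nonneg _) hr.le, ← Real.rpow_mul N.coe_nonneg,
      inv_mul_cancel₀ hr.ne', Real.rpow_one, ENNReal.ofReal_coe_nnreal] at h1
    exact h1
  · have h1 := key a.toReal ENNReal.toReal_nonneg (ENNReal.ofReal_toReal ha).le
    rwa [ENNReal.ofReal_toReal ha] at h1

theorem inner_le (r : ℝ) (hr : 1 < r) (a : ℝ≥0∞) :
    a * ∫⁻ t in Ioi (0 : ℝ), {t : ℝ | ENNReal.ofReal (t / 2) < a}.indicator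
      (fun t => ENNReal.ofReal (t ^ (r - 2))) t ≤
      ENNReal.ofReal (2 ^ (r - 1) / (r - 1)) * a ^ r := by
  rcases eq_or_ne a ∞ with ha | ha
  · subst ha
    rw [ENNReal.top_rpow_of_pos (by linarith), ENNReal.mul_top]
    · exact le_top
    · rw [Ne, ENNReal.ofReal_eq_zero, not_le]
      have : (0 : ℝ) < r - 1 := by linarith
      positivity
  · set b : ℝ := a.toReal with hb
    have hb0 : 0 ≤ b := ENNReal.toReal_nonneg
    have hab : a = ENNReal.ofReal b := (ENNReal.ofReal_toReal ha).symm
    have h1 : ∫⁻ t in Ioi (0 : ℝ), {t : ℝ | ENNReal.ofReal (t / 2) < a}.indicator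
      (fun t => ENNReal.ofReal (t ^ (r - 2))) t ≤ ENNReal.ofReal ((2 * b) ^ (r - 1) / (r - 1)) := by
      calc ∫⁻ t in Ioi (0 : ℝ), {t : ℝ | ENNReal.ofReal (t / 2) < a}.indicator
            (fun t => ENNReal.ofReal (t ^ (r - 2))) t
          ≤ ∫⁻ t in Ioi (0 : ℝ), (Ioo 0 (2 * b)).indicator
            (fun t => ENNReal.ofReal (t ^ (r - 2))) t := by
            refine setLIntegral_mono' measurableSet_Ioi fun t ht => ?_
            by_cases h : t ∈ {t : ℝ | ENNReal.ofReal (t / 2) < a}
            · rw [indicator_of_mem h, indicator_of_mem]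
              refine ⟨ht, ?_⟩
              rw [mem_ofPred_eq, hab] at h
              have := (ENNReal.ofReal_lt_ofReal_iff_of_nonneg
                (div_nonneg (le_of_lt ht) (by norm_num))).mp h
              linarith
            · rw [indicator_of_notMem h]; exact zero_le
        _ ≤ ∫⁻ t, (Ioo 0 (2 * b)).indicator (fun t => ENNReal.ofReal (t ^ (r - 2))) t :=
            setLIntegral_le_lintegral _ _
        _ = ∫⁻ t in Ioo 0 (2 * b), ENNReal.ofReal (t ^ (r - 2)) :=
            lintegral_indicator measurableSet_Ioo _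
        _ = ENNReal.ofReal ((2 * b) ^ (r - 1) / (r - 1)) := by
            rw [lint_pow (r - 2) (2 * b) (by linarith) (by linarith)]
            congr 2 <;> ring_nf
    calc a * _ ≤ ENNReal.ofReal b * ENNReal.ofReal ((2 * b) ^ (r - 1) / (r - 1)) := by
          rw [← hab]; gcongr
      _ = ENNReal.ofReal (2 ^ (r - 1) / (r - 1)) * a ^ r := by
          rw [hab, ENNReal.ofReal_rpow_of_nonneg hb0 (by linarith), ← ENNReal.ofReal_mul hb0,
            ← ENNReal.ofReal_mul (by have : (0 : ℝ) < r - 1 := by linarith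
                                     positivity)]
          congr 1
          rw [Real.mul_rpow (by norm_num) hb0]
          have h2 : b ^ r = b * b ^ (r - 1) := by
            rcases hb0.eq_or_lt with h | h
            · rw [← h, Real.zero_rpow (by linarith), zero_mul]
            · rw [Real.rpow_sub_one h.ne']
              field_simp
          rw [h2]; ring

theorem t_MAX : S_MAX := by
  intro r hr
  refine ⟨Real.toNNReal (4 * r * (2 ^ (r - 1) / (r - 1))), fun μ hμ g hg =>
    ⟨measurable_MF μ g, ?_⟩⟩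
  have : IsLocallyFiniteMeasure μ := ⟨fun x => ⟨Ioo (x - 1) (x + 1),
    Ioo_mem_nhds (by linarith) (by linarith), (hμ x 1).lt_top⟩⟩
  have hr1 : (0 : ℝ) < r - 1 := by linarith
  have hr0 : (0 : ℝ) < r := by linarith
  calc ∫⁻ x, MF μ g x ^ r ∂μ
      ≤ ∫⁻ x, ∫⁻ t in Ioi (0 : ℝ), {t : ℝ | ENNReal.ofReal t < MF μ g x}.indicator
          (fun t => ENNReal.ofReal (r * t ^ (r - 1))) t ∂volume ∂μ :=
        lintegral_mono fun x => pow_le_layer r hr0 _
    _ = ∫⁻ t in Ioi (0 : ℝ), ∫⁻ x, {t : ℝ | ENNReal.ofReal t < MF μ g x}.indicator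
          (fun t => ENNReal.ofReal (r * t ^ (r - 1))) t ∂μ ∂volume := by
        rw [lintegral_lintegral_swap]
        have h1 : (Function.uncurry fun (x t : ℝ) => {t : ℝ | ENNReal.ofReal t < MF μ g x}.indicator
          (fun t => ENNReal.ofReal (r * t ^ (r - 1))) t) =
          {q : ℝ × ℝ | ENNReal.ofReal q.2 < MF μ g q.1}.indicator
            (fun q => ENNReal.ofReal (r * q.2 ^ (r - 1))) := by
          ext q
          by_cases h : ENNReal.ofReal q.2 < MF μ g q.1
          · rw [indicator_of_mem (by exact h)]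
            simp only [Function.uncurry]
            rw [indicator_of_mem (by exact h)]
          · rw [indicator_of_notMem (by exact h)]
            simp only [Function.uncurry]
            rw [indicator_of_notMem (by exact h)]
        rw [h1]
        refine Measurable.aemeasurable (Measurable.indicator ?_ ?_)
        · fun_prop
        · exact measurableSet_lt (by fun_prop) ((measurable_MF μ g).comp measurable_fst)
    _ ≤ ∫⁻ t in Ioi (0 : ℝ), ENNReal.ofReal (4 * r * t ^ (r - 2)) *
          ∫⁻ x, {x | ENNReal.ofReal (t / 2) < g x}.indicator g x ∂μ := by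
        refine setLIntegral_mono' measurableSet_Ioi fun t ht => ?_
        have ht0 : (0 : ℝ) < t := ht
        have h1 : ∀ x, {t : ℝ | ENNReal.ofReal t < MF μ g x}.indicator
          (fun t => ENNReal.ofReal (r * t ^ (r - 1))) t =
          {x | ENNReal.ofReal t < MF μ g x}.indicator
            (fun _ => ENNReal.ofReal (r * t ^ (r - 1))) x := by
          intro x
          by_cases h : ENNReal.ofReal t < MF μ g x
          · rw [indicator_of_mem (by exact h), indicator_of_mem (by exact h)]
          · rw [indicator_of_notMem (by exact h), indicator_of_notMem (by exact h)]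
        simp_rw [h1]
        rw [lintegral_indicator_const (isOpen_MF μ g _).measurableSet]
        have h2 : ENNReal.ofReal (r * t ^ (r - 1)) =
            ENNReal.ofReal (r * t ^ (r - 2)) * ENNReal.ofReal t := by
          rw [← ENNReal.ofReal_mul (by positivity)]
          congr 1
          rw [mul_assoc]
          congr 1
          rw [← Real.rpow_add_one ht0.ne']
          congr 1; ring
        rw [h2, mul_assoc]
        refine (mul_le_mul_right (weak2 μ hμ g hg t ht0) _).trans ?_
        rw [← mul_assoc]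
        refine le_of_eq ?_
        congr 1
        rw [show (4 : ℝ≥0∞) = ENNReal.ofReal 4 by norm_num, ← ENNReal.ofReal_mul (by positivity)]
        congr 1; ring
    _ = ∫⁻ t in Ioi (0 : ℝ), ∫⁻ x, ENNReal.ofReal (4 * r) * (g x *
          {t : ℝ | ENNReal.ofReal (t / 2) < g x}.indicator
            (fun t => ENNReal.ofReal (t ^ (r - 2))) t) ∂μ := by
        refine setLIntegral_congr_fun measurableSet_Ioi fun t ht => ?_
        have ht0 : (0 : ℝ) < t := ht
        rw [← lintegral_const_mul _ (hg.indicator (measurableSet_lt measurable_const hg))]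
        refine lintegral_congr fun x => ?_
        by_cases h : ENNReal.ofReal (t / 2) < g x
        · rw [indicator_of_mem (by exact h), indicator_of_mem (by exact h),
            ENNReal.ofReal_mul (by positivity)]
          ring
        · rw [indicator_of_notMem (by exact h), indicator_of_notMem (by exact h)]
          simp
    _ = ∫⁻ x, ∫⁻ t in Ioi (0 : ℝ), ENNReal.ofReal (4 * r) * (g x *
          {t : ℝ | ENNReal.ofReal (t / 2) < g x}.indicator
            (fun t => ENNReal.ofReal (t ^ (r - 2))) t) ∂volume ∂μ := by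
        rw [lintegral_lintegral_swap]
        have h1 : (Function.uncurry fun (t x : ℝ) => ENNReal.ofReal (4 * r) * (g x *
          {t : ℝ | ENNReal.ofReal (t / 2) < g x}.indicator
            (fun t => ENNReal.ofReal (t ^ (r - 2))) t)) =
          {q : ℝ × ℝ | ENNReal.ofReal (q.1 / 2) < g q.2}.indicator
            (fun q => ENNReal.ofReal (4 * r) * (g q.2 * ENNReal.ofReal (q.1 ^ (r - 2)))) := by
          ext q
          by_cases h : ENNReal.ofReal (q.1 / 2) < g q.2
          · rw [indicator_of_mem (by exact h)]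
            simp only [Function.uncurry]
            rw [indicator_of_mem (by exact h)]
          · rw [indicator_of_notMem (by exact h)]
            simp only [Function.uncurry]
            rw [indicator_of_notMem (by exact h)]
            simp
        rw [h1]
        refine Measurable.aemeasurable (Measurable.indicator ?_ ?_)
        · have : Measurable fun q : ℝ × ℝ => g q.2 := hg.comp measurable_snd
          fun_prop
        · exact measurableSet_lt (by fun_prop) (hg.comp measurable_snd)
    _ ≤ ∫⁻ x, ENNReal.ofReal (4 * r * (2 ^ (r - 1) / (r - 1))) * g x ^ r ∂μ := by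
        refine lintegral_mono fun x => ?_
        have hm : Measurable fun t : ℝ => {t : ℝ | ENNReal.ofReal (t / 2) < g x}.indicator
            (fun t => ENNReal.ofReal (t ^ (r - 2))) t := by
          refine Measurable.indicator (by fun_prop) ?_
          exact measurableSet_lt (by fun_prop) measurable_const
        simp only
        rw [lintegral_const_mul _ (hm.const_mul _), lintegral_const_mul _ hm,
          show ENNReal.ofReal (4 * r * (2 ^ (r - 1) / (r - 1))) =
            ENNReal.ofReal (4 * r) * ENNReal.ofReal (2 ^ (r - 1) / (r - 1)) from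
            ENNReal.ofReal_mul (by positivity), mul_assoc]
        exact mul_le_mul_right (inner_le r hr (g x)) _
    _ = _ := by
        rw [lintegral_const_mul _ (hg.pow_const r)]
        rfl

end Pool.Agent.Q150.GL
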